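import Pool.Agent.W_30d1b9t_h50.RepT
import Pool.Agent.W_30d1b9_h50.Arc

/-!
# MP_30d1b9_co: positions of Circular Nim which look like positions of the nine stack game
-/

namespace Pool.Agent.W_30d1b9t_h50

open Pool.Agent.W_30d1b9_h50

variable {n k : ℕ} [NeZero n]

/-- `K` for the values `s 0, ..., s 8`. -/
def KS (s : ℕ → ℕ) : Prop := K (s 0) (s 1) (s 2) (s 3) (s 4) (s 5) (s 6) (s 7) (s 8)

/-- The six sets of classes. -/
def InU (t j : ℕ) : Prop :=
  (t = 0 ∧ j ≤ 3) ∨ (t = 1 ∧ 1 ≤ j ∧ j ≤ 4) ∨ (t = 2 ∧ 2 ≤ j ∧ j ≤ 5) ∨ (t = 3 ∧ 5 ≤ j ∧ j ≤ 6) ∨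
    (t = 4 ∧ 7 ≤ j ∧ j ≤ 8) ∨ (t = 5 ∧ (j ≤ 2 ∨ j = 8))

theorem KS_no_move {s s' : ℕ → ℕ} (h1 : KS s) (h2 : KS s') (h3 : ∀ j, s' j ≤ s j) (t : ℕ)
    (ht : t < 6) (h4 : ∀ j, InU t j → s' j = s j) : ∀ j, j ≤ 8 → s' j = s j := by
  have h5 : Keep (s 0) (s 1) (s 2) (s 3) (s 4) (s 5) (s 6) (s 7) (s 8)
      (s' 0) (s' 1) (s' 2) (s' 3) (s' 4) (s' 5) (s' 6) (s' 7) (s' 8) := by
    unfold Keep
    have ht' : t = 0 ∨ t = 1 ∨ t = 2 ∨ t = 3 ∨ t = 4 ∨ t = 5 := by omega
    rcases ht' with rfl | rfl | rfl | rfl | rfl | rfl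
    · left
      exact ⟨h4 0 (by unfold InU; omega), h4 1 (by unfold InU; omega),
        h4 2 (by unfold InU; omega), h4 3 (by unfold InU; omega)⟩
    · right; left
      exact ⟨h4 1 (by unfold InU; omega), h4 2 (by unfold InU; omega),
        h4 3 (by unfold InU; omega), h4 4 (by unfold InU; omega)⟩
    · right; right; left
      exact ⟨h4 2 (by unfold InU; omega), h4 3 (by unfold InU; omega),
        h4 4 (by unfold InU; omega), h4 5 (by unfold InU; omega)⟩
    · right; right; right; left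
      exact ⟨h4 5 (by unfold InU; omega), h4 6 (by unfold InU; omega)⟩
    · right; right; right; right; left
      exact ⟨h4 7 (by unfold InU; omega), h4 8 (by unfold InU; omega)⟩
    · right; right; right; right; right
      exact ⟨h4 8 (by unfold InU; omega), h4 0 (by unfold InU; omega),
        h4 1 (by unfold InU; omega), h4 2 (by unfold InU; omega)⟩
  have h6 := K_no_move h1 h2 ⟨h3 0, h3 1, h3 2, h3 3, h3 4, h3 5, h3 6, h3 7, h3 8⟩ h5
  intro j hj
  have hj' : j = 0 ∨ j = 1 ∨ j = 2 ∨ j = 3 ∨ j = 4 ∨ j = 5 ∨ j = 6 ∨ j = 7 ∨ j = 8 := by omega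
  rcases hj' with rfl | rfl | rfl | rfl | rfl | rfl | rfl | rfl | rfl
  · exact h6.1
  · exact h6.2.1
  · exact h6.2.2.1
  · exact h6.2.2.2.1
  · exact h6.2.2.2.2.1
  · exact h6.2.2.2.2.2.1
  · exact h6.2.2.2.2.2.2.1
  · exact h6.2.2.2.2.2.2.2.1
  · exact h6.2.2.2.2.2.2.2.2

/-- values of a nine-tuple -/
def tup (a b m c d e f g i : ℕ) (j : ℕ) : ℕ :=
  if j = 0 then a else if j = 1 then b else if j = 2 then m else if j = 3 then c else
  if j = 4 then d else if j = 5 then e else if j = 6 then f else if j = 7 then g else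
  if j = 8 then i else 0

theorem KS_reply (s : ℕ → ℕ) : ∃ s' : ℕ → ℕ, KS s' ∧ (∀ j, s' j ≤ s j) ∧
    ∃ t < 6, ∀ j, InU t j → s' j = s j := by
  obtain ⟨a, b, m, c, d, e, f, g, i, h1, h2, h3⟩ :=
    Rep_all (s 0) (s 1) (s 2) (s 3) (s 4) (s 5) (s 6) (s 7) (s 8)
  refine ⟨tup a b m c d e f g i, h1, fun j => ?_, ?_⟩
  · unfold tup
    split_ifs with e0 e1 e2 e3 e4 e5 e6 e7 e8
    · rw [e0]; exact h2.1
    · rw [e1]; exact h2.2.1
    · rw [e2]; exact h2.2.2.1
    · rw [e3]; exact h2.2.2.2.1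
    · rw [e4]; exact h2.2.2.2.2.1
    · rw [e5]; exact h2.2.2.2.2.2.1
    · rw [e6]; exact h2.2.2.2.2.2.2.1
    · rw [e7]; exact h2.2.2.2.2.2.2.2.1
    · rw [e8]; exact h2.2.2.2.2.2.2.2.2
    · exact Nat.zero_le _
  · have key : ∀ t : ℕ, (∀ j, InU t j → j ≤ 8) := by
      intro t j h
      unfold InU at h
      omega
    have v0 : tup a b m c d e f g i 0 = a := rfl
    have v1 : tup a b m c d e f g i 1 = b := rfl
    have v2 : tup a b m c d e f g i 2 = m := rfl
    have v3 : tup a b m c d e f g i 3 = c := rfl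
    have v4 : tup a b m c d e f g i 4 = d := rfl
    have v5 : tup a b m c d e f g i 5 = e := rfl
    have v6 : tup a b m c d e f g i 6 = f := rfl
    have v7 : tup a b m c d e f g i 7 = g := rfl
    have v8 : tup a b m c d e f g i 8 = i := rfl
    have fin : ∀ t : ℕ, (InU t 0 → a = s 0) → (InU t 1 → b = s 1) → (InU t 2 → m = s 2) →
        (InU t 3 → c = s 3) → (InU t 4 → d = s 4) → (InU t 5 → e = s 5) → (InU t 6 → f = s 6) →
        (InU t 7 → g = s 7) → (InU t 8 → i = s 8) →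
        ∀ j, InU t j → tup a b m c d e f g i j = s j := by
      intro t w0 w1 w2 w3 w4 w5 w6 w7 w8 j hj
      have h8 := key t j hj
      have hj' : j = 0 ∨ j = 1 ∨ j = 2 ∨ j = 3 ∨ j = 4 ∨ j = 5 ∨ j = 6 ∨ j = 7 ∨ j = 8 := by
        omega
      rcases hj' with rfl | rfl | rfl | rfl | rfl | rfl | rfl | rfl | rfl
      · rw [v0]; exact w0 hj
      · rw [v1]; exact w1 hj
      · rw [v2]; exact w2 hj
      · rw [v3]; exact w3 hj
      · rw [v4]; exact w4 hj
      · rw [v5]; exact w5 hj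
      · rw [v6]; exact w6 hj
      · rw [v7]; exact w7 hj
      · rw [v8]; exact w8 hj
    unfold Keep at h3
    rcases h3 with h3 | h3 | h3 | h3 | h3 | h3
    · refine ⟨0, by norm_num, fin 0 ?_ ?_ ?_ ?_ ?_ ?_ ?_ ?_ ?_⟩ <;>
        (intro h4; unfold InU at h4; omega)
    · refine ⟨1, by norm_num, fin 1 ?_ ?_ ?_ ?_ ?_ ?_ ?_ ?_ ?_⟩ <;>
        (intro h4; unfold InU at h4; omega)
    · refine ⟨2, by norm_num, fin 2 ?_ ?_ ?_ ?_ ?_ ?_ ?_ ?_ ?_⟩ <;>
        (intro h4; unfold InU at h4; omega)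
    · refine ⟨3, by norm_num, fin 3 ?_ ?_ ?_ ?_ ?_ ?_ ?_ ?_ ?_⟩ <;>
        (intro h4; unfold InU at h4; omega)
    · refine ⟨4, by norm_num, fin 4 ?_ ?_ ?_ ?_ ?_ ?_ ?_ ?_ ?_⟩ <;>
        (intro h4; unfold InU at h4; omega)
    · refine ⟨5, by norm_num, fin 5 ?_ ?_ ?_ ?_ ?_ ?_ ?_ ?_ ?_⟩ <;>
        (intro h4; unfold InU at h4; omega)

/-- The class sums. -/
def cs (κ p : ZMod n → ℕ) (j : ℕ) : ℕ := ∑ x ∈ Finset.univ.filter (fun x => κ x = j), p x

/-- The windows of `CN(n,k)` induce the windows of the nine stack game. Class `9`: no tokens. -/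
structure Emb (n k : ℕ) [NeZero n] (κ : ZMod n → ℕ) : Prop where
  le : ∀ x, κ x ≤ 9
  e1 : ∀ i : ZMod n, ∃ t < 6, ∀ x, InU t (κ x) → x ∉ window n k i
  e2 : ∀ t < 6, ∃ i : ZMod n, ∀ x, κ x ≠ 9 → ¬ InU t (κ x) → x ∈ window n k i

theorem cs_le {κ p q : ZMod n → ℕ} (h : ∀ x, q x ≤ p x) (j : ℕ) : cs κ q j ≤ cs κ p j :=
  Finset.sum_le_sum fun x _ => h x

theorem isP_emb_aux {κ : ZMod n → ℕ} (hE : Emb n k κ) (N : ℕ) :
    ∀ p : ZMod n → ℕ, ∑ x, p x ≤ N → (∀ x, κ x = 9 → p x = 0) →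
      (IsP n k p ↔ KS (cs κ p)) := by
  induction N using Nat.strong_induction_on with
  | _ N ih =>
    intro p hN hp
    have IH : ∀ q, Move n k p q → (IsP n k q ↔ KS (cs κ q)) := by
      intro q hq
      have h1 := hq.lt
      obtain ⟨i, _, hle, _⟩ := hq
      refine ih (∑ x, q x) (by omega) q le_rfl fun x hx => ?_
      have h2 := hle x
      rw [hp x hx] at h2
      omega
    constructor
    · intro hP
      by_contra hK
      obtain ⟨s', h1, h2, t, ht, h3⟩ := KS_reply (cs κ p)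
      have hch : ∀ j, ∃ h : ZMod n → ℕ, (∀ x, h x ≤ p x) ∧
          ∑ x ∈ Finset.univ.filter (fun x => κ x = j), h x = s' j ∧
          (s' j = cs κ p j → h = p) := by
        intro j
        by_cases hj : s' j = cs κ p j
        · exact ⟨p, fun _ => le_rfl, hj.symm, fun _ => rfl⟩
        · obtain ⟨h, h4, h5⟩ := exists_part _ p (s' j) (h2 j)
          exact ⟨h, h4, h5, fun h => absurd h hj⟩
      choose h hh1 hh2 hh3 using hch
      obtain ⟨q, hq⟩ : ∃ q : ZMod n → ℕ, ∀ x, q x = h (κ x) x := ⟨_, fun _ => rfl⟩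
      have hqle : ∀ x, q x ≤ p x := fun x => by
        rw [hq]
        exact hh1 _ x
      have hcs : ∀ j, cs κ q j = s' j := by
        intro j
        rw [← hh2 j]
        refine Finset.sum_congr rfl fun x hx => ?_
        rw [hq, (Finset.mem_filter.1 hx).2]
      have hKq : KS (cs κ q) := by
        unfold KS
        rw [hcs, hcs, hcs, hcs, hcs, hcs, hcs, hcs, hcs]
        exact h1
      have hmv : Move n k p q := by
        obtain ⟨i, hi⟩ := hE.e2 t ht
        refine ⟨i, fun x hx => ?_, hqle, fun he => ?_⟩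
        · by_cases h9 : κ x = 9
          · have h5 := hqle x
            rw [hp x h9] at h5 ⊢
            omega
          · by_cases hu : InU t (κ x)
            · rw [hq, hh3 _ (h3 _ hu)]
            · exact absurd (hi x h9 hu) hx
        · rw [he] at hKq
          exact hK hKq
      exact (isP_iff p).1 hP q hmv ((IH q hmv).2 hKq)
    · intro hK
      rw [isP_iff]
      intro q hmv hPq
      have hKq := (IH q hmv).1 hPq
      obtain ⟨i, hkeep, hle, hne⟩ := hmv
      obtain ⟨t, ht, hi⟩ := hE.e1 i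
      have h4 : ∀ j, InU t j → cs κ q j = cs κ p j := by
        intro j hj
        refine Finset.sum_congr rfl fun x hx => ?_
        refine hkeep x (hi x ?_)
        rw [(Finset.mem_filter.1 hx).2]
        exact hj
      have h5 := KS_no_move hK hKq (cs_le hle) t ht h4
      apply hne
      funext x
      rcases Nat.lt_or_ge 8 (κ x) with h8 | h8
      · have h9 := hE.le x
        have h10 := hp x (by omega)
        have h11 := hle x
        omega
      · by_contra hcon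
        have h6 : q x < p x := lt_of_le_of_ne (hle x) hcon
        have h7 : cs κ q (κ x) < cs κ p (κ x) :=
          Finset.sum_lt_sum (fun j _ => hle j)
            ⟨x, Finset.mem_filter.2 ⟨Finset.mem_univ _, rfl⟩, h6⟩
        have h9 := h5 (κ x) h8
        omega

theorem isP_emb {κ : ZMod n → ℕ} (hE : Emb n k κ) (p : ZMod n → ℕ)
    (hp : ∀ x, κ x = 9 → p x = 0) : IsP n k p ↔ KS (cs κ p) :=
  isP_emb_aux hE _ p le_rfl hp

end Pool.Agent.W_30d1b9t_h50
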