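import Pool.Agent.W_30d1b9t_h50.Emb

/-!
# MP_30d1b9_co: the class map and the P-positions for `n/2 < k < (2n+1)/3`
-/

namespace Pool.Agent.W_30d1b9t_h50

open Pool.Agent.W_30d1b9_h50

variable {n k : ℕ} [NeZero n]

/-- class of the stack `v`; the classes `0, ..., 4` divide the stacks below `g` -/
def kp (n g r s t u : ℕ) (v : ℕ) : ℕ :=
  if v < r then 0 else if v < r + s then 1 else if v + u + t < g then 2 else
  if v + u < g then 3 else if v < g then 4 else if v = g + r then 5 else
  if v = g + r + s then 6 else if v + 1 + u = n then 8 else if v + 1 + u + t = n then 7 else 9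

theorem kp_cases (n g r s t u v : ℕ) :
    (v < r ∧ kp n g r s t u v = 0) ∨
    (r ≤ v ∧ v < r + s ∧ kp n g r s t u v = 1) ∨
    (r + s ≤ v ∧ v + u + t < g ∧ kp n g r s t u v = 2) ∨
    (r + s ≤ v ∧ g ≤ v + u + t ∧ v + u < g ∧ kp n g r s t u v = 3) ∨
    (r + s ≤ v ∧ g ≤ v + u ∧ v < g ∧ kp n g r s t u v = 4) ∨
    (r + s ≤ v ∧ g ≤ v ∧ v = g + r ∧ kp n g r s t u v = 5) ∨
    (r + s ≤ v ∧ g ≤ v ∧ v ≠ g + r ∧ v = g + r + s ∧ kp n g r s t u v = 6) ∨
    (r + s ≤ v ∧ g ≤ v ∧ v ≠ g + r ∧ v ≠ g + r + s ∧ v + 1 + u = n ∧ kp n g r s t u v = 8) ∨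
    (r + s ≤ v ∧ g ≤ v ∧ v ≠ g + r ∧ v ≠ g + r + s ∧ v + 1 + u ≠ n ∧ v + 1 + u + t = n ∧
      kp n g r s t u v = 7) ∨
    (r + s ≤ v ∧ g ≤ v ∧ v ≠ g + r ∧ v ≠ g + r + s ∧ v + 1 + u ≠ n ∧ v + 1 + u + t ≠ n ∧
      kp n g r s t u v = 9) := by
  unfold kp
  split_ifs with a0 a1 a2 a3 a4 a5 a6 a7 a8
  · exact Or.inl ⟨a0, rfl⟩
  · exact Or.inr (Or.inl ⟨by omega, a1, rfl⟩)
  · exact Or.inr (Or.inr (Or.inl ⟨by omega, a2, rfl⟩))
  · exact Or.inr (Or.inr (Or.inr (Or.inl ⟨by omega, by omega, a3, rfl⟩)))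
  · exact Or.inr (Or.inr (Or.inr (Or.inr (Or.inl ⟨by omega, by omega, a4, rfl⟩))))
  · exact Or.inr (Or.inr (Or.inr (Or.inr (Or.inr (Or.inl ⟨by omega, by omega, a5, rfl⟩)))))
  · exact Or.inr (Or.inr (Or.inr (Or.inr (Or.inr (Or.inr (Or.inl
      ⟨by omega, by omega, a5, a6, rfl⟩))))))
  · exact Or.inr (Or.inr (Or.inr (Or.inr (Or.inr (Or.inr (Or.inr (Or.inl
      ⟨by omega, by omega, a5, a6, a7, rfl⟩)))))))
  · exact Or.inr (Or.inr (Or.inr (Or.inr (Or.inr (Or.inr (Or.inr (Or.inr (Or.inl
      ⟨by omega, by omega, a5, a6, a7, a8, rfl⟩))))))))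
  · exact Or.inr (Or.inr (Or.inr (Or.inr (Or.inr (Or.inr (Or.inr (Or.inr (Or.inr
      ⟨by omega, by omega, a5, a6, a7, a8, rfl⟩))))))))

/-- The conditions on the class sizes. -/
structure Par (n k g r s t u : ℕ) : Prop where
  hk : g + k = n
  c1 : r + s + 2 * g + 1 ≤ n
  c2 : u + t + 2 * g + 1 ≤ n
  c3 : n ≤ 2 * g + 1 + r + u
  c4 : r + s + t + u ≤ g
  c5 : 1 ≤ r

theorem emb_kp {g r s t u : ℕ} (hP : Par n k g r s t u) :
    Emb n k fun x => kp n g r s t u x.val := by
  obtain ⟨hk, c1, c2, c3, c4, c5⟩ := hP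
  refine ⟨fun x => ?_, fun i => ?_, fun w hw => ?_⟩
  · have := kp_cases n g r s t u x.val
    show kp n g r s t u x.val ≤ 9
    omega
  · have hi := ZMod.val_lt i
    have key : ∀ w : ℕ, w < 6 → (∀ v : ℕ, v < n → InU w (kp n g r s t u v) →
        (v < i.val ∧ i.val ≤ v + g) ∨ i.val + k ≤ v) →
        ∃ t' < 6, ∀ x, InU t' ((fun x : ZMod n => kp n g r s t u x.val) x) →
          x ∉ window n k i := by
      intro w hw h
      refine ⟨w, hw, fun x hx => ?_⟩
      rw [not_mem_window hk]
      exact h x.val (ZMod.val_lt x) hx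
    rcases Nat.lt_or_ge i.val (g - u - t) with h1 | h1
    · refine key 4 (by norm_num) fun v hv h => ?_
      have := kp_cases n g r s t u v
      unfold InU at h
      omega
    rcases Nat.lt_or_ge i.val (g - u) with h2 | h2
    · refine key 5 (by norm_num) fun v hv h => ?_
      have := kp_cases n g r s t u v
      unfold InU at h
      omega
    rcases Nat.lt_or_ge i.val g with h3 | h3
    · refine key 0 (by norm_num) fun v hv h => ?_
      have := kp_cases n g r s t u v
      unfold InU at h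
      omega
    rcases Nat.lt_or_ge i.val (g + r + 1) with h4 | h4
    · refine key 1 (by norm_num) fun v hv h => ?_
      have := kp_cases n g r s t u v
      unfold InU at h
      omega
    rcases Nat.lt_or_ge i.val (g + r + s + 1) with h5 | h5
    · refine key 2 (by norm_num) fun v hv h => ?_
      have := kp_cases n g r s t u v
      unfold InU at h
      omega
    rcases Nat.lt_or_ge i.val (2 * g + r + 1) with h6 | h6
    · refine key 3 (by norm_num) fun v hv h => ?_
      have := kp_cases n g r s t u v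
      unfold InU at h
      omega
    · refine key 4 (by norm_num) fun v hv h => ?_
      have := kp_cases n g r s t u v
      unfold InU at h
      omega
  · have key : ∀ i : ℕ, i < n → (∀ v : ℕ, v < n → kp n g r s t u v ≠ 9 →
        ((v < i ∧ i ≤ v + g) ∨ i + k ≤ v) → InU w (kp n g r s t u v)) →
        ∃ i : ZMod n, ∀ x, (fun x : ZMod n => kp n g r s t u x.val) x ≠ 9 →
          ¬ InU w ((fun x : ZMod n => kp n g r s t u x.val) x) → x ∈ window n k i := by
      intro i hi h
      refine ⟨((i : ℕ) : ZMod n), fun x hx hxu => ?_⟩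
      by_contra hcon
      rw [not_mem_window hk, val_cast hi] at hcon
      exact hxu (h x.val (ZMod.val_lt x) hx hcon)
    have hw' : w = 0 ∨ w = 1 ∨ w = 2 ∨ w = 3 ∨ w = 4 ∨ w = 5 := by omega
    rcases hw' with rfl | rfl | rfl | rfl | rfl | rfl
    · refine key (g - u) (by omega) fun v hv h9 h => ?_
      have := kp_cases n g r s t u v
      unfold InU
      omega
    · refine key (g + r) (by omega) fun v hv h9 h => ?_
      have := kp_cases n g r s t u v
      unfold InU
      omega
    · refine key (g + r + s) (by omega) fun v hv h9 h => ?_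
      have := kp_cases n g r s t u v
      unfold InU
      omega
    · refine key (2 * g) (by omega) fun v hv h9 h => ?_
      have := kp_cases n g r s t u v
      unfold InU
      omega
    · refine key 0 (by omega) fun v hv h9 h => ?_
      have := kp_cases n g r s t u v
      unfold InU
      omega
    · refine key (g - u - t) (by omega) fun v hv h9 h => ?_
      have := kp_cases n g r s t u v
      unfold InU
      omega

theorem card_cls {κ : ℕ → ℕ} {j lo hi : ℕ} (h : ∀ v, v < n → (κ v = j ↔ lo ≤ v ∧ v < hi))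
    (hn : hi ≤ n) : (Finset.univ.filter (fun x : ZMod n => κ x.val = j)).card = hi - lo := by
  refine (Finset.card_bij (t := Finset.Ico lo hi) (fun x _ => x.val) ?_ ?_ ?_).trans
    (Nat.card_Ico lo hi)
  · intro x hx
    exact Finset.mem_Ico.2 ((h x.val (ZMod.val_lt x)).1 (Finset.mem_filter.1 hx).2)
  · intro x _ y _ hxy
    exact ZMod.val_injective _ hxy
  · intro b hb
    rw [Finset.mem_Ico] at hb
    have hbn : b < n := by omega
    refine ⟨((b : ℕ) : ZMod n), Finset.mem_filter.2 ⟨Finset.mem_univ _, ?_⟩, val_cast hbn⟩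
    show κ ((b : ℕ) : ZMod n).val = j
    rw [val_cast hbn]
    exact (h b hbn).2 hb

theorem cs_cls {κ w : ℕ → ℕ} {j lo hi : ℕ} (h : ∀ v, v < n → (κ v = j ↔ lo ≤ v ∧ v < hi))
    (hn : hi ≤ n) :
    cs (fun x : ZMod n => κ x.val) (fun x => w (κ x.val)) j = (hi - lo) * w j := by
  unfold cs
  rw [Finset.sum_congr rfl (g := fun _ => w j) fun x hx => by
    have h1 : κ x.val = j := (Finset.mem_filter.1 hx).2
    show w (κ x.val) = w j
    rw [h1], Finset.sum_const, card_cls h hn, smul_eq_mul]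

/-- a position which is constant on the classes -/
theorem isP_kp {g r s t u : ℕ} (hP : Par n k g r s t u) (hs : s ≤ 1) (ht : t ≤ 1) (w : ℕ → ℕ)
    (h9 : w 9 = 0) : IsP n k (fun x => w (kp n g r s t u x.val)) ↔
      K (r * w 0) (s * w 1) ((g - r - s - t - u) * w 2) (t * w 3) (u * w 4) (w 5) (s * w 6)
        (t * w 7) (w 8) := by
  rw [isP_emb (emb_kp hP) _ (fun x hx => by
    show w (kp n g r s t u x.val) = 0
    rw [show kp n g r s t u x.val = 9 from hx, h9])]
  obtain ⟨hk, c1, c2, c3, c4, c5⟩ := hP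
  unfold KS
  have e0 := cs_cls (n := n) (κ := kp n g r s t u) (w := w) (j := 0) (lo := 0) (hi := r)
    (fun v hv => by have := kp_cases n g r s t u v; omega) (by omega)
  have e1 := cs_cls (n := n) (κ := kp n g r s t u) (w := w) (j := 1) (lo := r) (hi := r + s)
    (fun v hv => by have := kp_cases n g r s t u v; omega) (by omega)
  have e2 := cs_cls (n := n) (κ := kp n g r s t u) (w := w) (j := 2) (lo := r + s)
    (hi := g - t - u) (fun v hv => by have := kp_cases n g r s t u v; omega) (by omega)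
  have e3 := cs_cls (n := n) (κ := kp n g r s t u) (w := w) (j := 3) (lo := g - t - u)
    (hi := g - u) (fun v hv => by have := kp_cases n g r s t u v; omega) (by omega)
  have e4 := cs_cls (n := n) (κ := kp n g r s t u) (w := w) (j := 4) (lo := g - u)
    (hi := g) (fun v hv => by have := kp_cases n g r s t u v; omega) (by omega)
  have e5 := cs_cls (n := n) (κ := kp n g r s t u) (w := w) (j := 5) (lo := g + r)
    (hi := g + r + 1) (fun v hv => by have := kp_cases n g r s t u v; omega) (by omega)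
  have e6 := cs_cls (n := n) (κ := kp n g r s t u) (w := w) (j := 6) (lo := g + r + 1)
    (hi := g + r + 1 + s) (fun v hv => by have := kp_cases n g r s t u v; omega) (by omega)
  have e7 := cs_cls (n := n) (κ := kp n g r s t u) (w := w) (j := 7) (lo := n - 1 - u - t)
    (hi := n - 1 - u) (fun v hv => by have := kp_cases n g r s t u v; omega) (by omega)
  have e8 := cs_cls (n := n) (κ := kp n g r s t u) (w := w) (j := 8) (lo := n - 1 - u)
    (hi := n - u) (fun v hv => by have := kp_cases n g r s t u v; omega) (by omega)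
  rw [e0, e1, e2, e3, e4, e5, e6, e7, e8, show r - 0 = r by omega, show r + s - r = s by omega,
    show g - t - u - (r + s) = g - r - s - t - u by omega,
    show g - u - (g - t - u) = t by omega, show g - (g - u) = u by omega,
    show g + r + 1 - (g + r) = 1 by omega, show g + r + 1 + s - (g + r + 1) = s by omega,
    show n - 1 - u - (n - 1 - u - t) = t by omega, show n - u - (n - 1 - u) = 1 by omega,
    one_mul, one_mul]

/-- four stacks around the circle, no arc of `g` stacks contains two consecutive gaps -/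
theorem isP_four {g t0 t1 t2 t3 : ℕ} (hk : g + k = n) (h3 : t3 < n) (g0 : t1 ≤ t0 + g)
    (g1 : t2 ≤ t1 + g) (g2 : t3 ≤ t2 + g) (g3 : t0 + n ≤ t3 + g) (s0 : t0 + g + 1 ≤ t2)
    (s1 : t1 + g + 1 ≤ t3) (s2 : t2 + g + 1 ≤ n) (s3 : t3 + g + 1 ≤ t1 + n) (l0 : t0 < t1)
    (X : ℕ) : IsP n k fun x => if x.val = t0 ∨ x.val = t1 ∨ x.val = t2 ∨ x.val = t3 then X
      else 0 := by
  refine isP_cluster' {x | x.val = t0 ∨ x.val = t1 ∨ x.val = t2 ∨ x.val = t3}
    (fun x => x.val) ?_ ?_ _ (fun x hx => if_neg hx) X ?_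
  · intro i
    have hi := ZMod.val_lt i
    have key : ∀ v : ℕ, v < n → (v = t0 ∨ v = t1 ∨ v = t2 ∨ v = t3) →
        ((v < i.val ∧ i.val ≤ v + g) ∨ i.val + k ≤ v) →
        ∃ y ∈ {x : ZMod n | x.val = t0 ∨ x.val = t1 ∨ x.val = t2 ∨ x.val = t3},
          ∀ x ∈ {x : ZMod n | x.val = t0 ∨ x.val = t1 ∨ x.val = t2 ∨ x.val = t3},
            x.val = y.val → x ∉ window n k i := by
      intro v hv h1 h2
      refine ⟨((v : ℕ) : ZMod n), ?_, fun x _ hx => ?_⟩
      · show _ ∨ _ ∨ _ ∨ _
        rw [val_cast hv]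
        exact h1
      · rw [not_mem_window hk, hx, val_cast hv]
        exact h2
    rcases Nat.lt_or_ge t3 i.val with c3 | c3
    · exact key t3 h3 (by omega) (by omega)
    rcases Nat.lt_or_ge t2 i.val with c2 | c2
    · exact key t2 (by omega) (by omega) (by omega)
    rcases Nat.lt_or_ge t1 i.val with c1 | c1
    · exact key t1 (by omega) (by omega) (by omega)
    rcases Nat.lt_or_ge t0 i.val with c0 | c0
    · exact key t0 (by omega) (by omega) (by omega)
    · exact key t3 h3 (by omega) (by omega)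
  · intro y hy
    have key : ∀ v : ℕ, v < n → (∀ w : ℕ, w < n → w ≠ y.val →
        (w = t0 ∨ w = t1 ∨ w = t2 ∨ w = t3) → ¬ ((w < v ∧ v ≤ w + g) ∨ v + k ≤ w)) →
        ∃ i : ZMod n, ∀ x ∈ {x : ZMod n | x.val = t0 ∨ x.val = t1 ∨ x.val = t2 ∨ x.val = t3},
          x.val ≠ y.val → x ∈ window n k i := by
      intro v hv h
      refine ⟨((v : ℕ) : ZMod n), fun x hx hxy => ?_⟩
      by_contra hcon
      rw [not_mem_window hk, val_cast hv] at hcon
      exact h x.val (ZMod.val_lt x) hxy hx hcon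
    rcases hy with h | h | h | h
    · exact key t1 (by omega) fun w hw hwy h1 => by omega
    · exact key (t0 + g + 1) (by omega) fun w hw hwy h1 => by omega
    · exact key (t1 + g + 1) (by omega) fun w hw hwy h1 => by omega
    · exact key 0 (by omega) fun w hw hwy h1 => by omega
  · intro y hy C hC
    rw [Finset.sum_eq_single y]
    · exact if_pos hy
    · intro x hx hxy
      exact absurd (ZMod.val_injective _ ((hC x).1 hx).2) hxy
    · intro h
      exact absurd ((hC y).2 ⟨hy, rfl⟩) h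

/-- the move which keeps the stacks `0, ..., g-1` -/
theorem not_isP_of {g : ℕ} (hk : g + k = n) (hg : g < n) {P q : ZMod n → ℕ} (hq : IsP n k q)
    (h1 : ∀ x : ZMod n, x.val < g → q x = P x) (h2 : ∀ x : ZMod n, g ≤ x.val → q x ≤ P x)
    (h3 : q ≠ P) : ¬ IsP n k P := by
  intro hP
  refine (isP_iff P).1 hP q ⟨((g : ℕ) : ZMod n), fun j hj => ?_, fun j => ?_, h3⟩ hq
  · rw [not_mem_window hk, val_cast hg] at hj
    have := ZMod.val_lt j
    exact h1 j (by omega)
  · rcases Nat.lt_or_ge j.val g with h | h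
    · exact (h1 j h).le
    · exact h2 j h

end Pool.Agent.W_30d1b9t_h50
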