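import Mathlib

/-!
# MP_30d1b9_co: the kernel of a game on nine stacks

Stacks `a b m c d e f g i`; a move keeps all stacks of one of the sets `{a,b,m,c}`, `{b,m,c,d}`,
`{m,c,d,e}`, `{e,f}`, `{g,i}`, `{i,a,b,m}` and lowers the others.  `K` is the set of P-positions.
-/

namespace Pool.Agent.W_30d1b9t_h50

/-- The set of P-positions. -/
def K (a b m c d e f g i : ℕ) : Prop :=
  (b ≤ f ∧ c ≤ g ∧ a + b = c + d ∧ e + f = a + b + m ∧ g + i = a + b + m) ∨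
  (f < b ∧ c < g ∧ a + f = c + d ∧ e + f = a + b + m ∧ g + i = a + b + m) ∨
  (f = 0 ∧ c ≤ g ∧ a = c + d ∧ e = a + b + m ∧ g + i = a + b + m) ∨
  (g < c ∧ b < f ∧ d + g = a + b ∧ e + f = c + d + m ∧ g + i = c + d + m) ∨
  (g = 0 ∧ b ≤ f ∧ d = a + b ∧ e + f = c + d + m ∧ i = c + d + m) ∨
  (1 ≤ f ∧ f < b ∧ 1 ≤ g ∧ g < c ∧ b + g = c + f ∧ a + b = c + d ∧ e + f = a + b + m ∧
    g + i = a + b + m) ∨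
  (f = 0 ∧ g ≤ c ∧ a = d + g ∧ e = b + m + c + d ∧ g + i = b + m + c + d) ∨
  (g = 0 ∧ f ≤ b ∧ d = a + f ∧ i = a + b + m + c ∧ e + f = a + b + m + c)

/-- One of the six sets of stacks is unchanged. -/
def Keep (a b m c d e f g i a' b' m' c' d' e' f' g' i' : ℕ) : Prop :=
  (a' = a ∧ b' = b ∧ m' = m ∧ c' = c) ∨ (b' = b ∧ m' = m ∧ c' = c ∧ d' = d) ∨
  (m' = m ∧ c' = c ∧ d' = d ∧ e' = e) ∨ (e' = e ∧ f' = f) ∨ (g' = g ∧ i' = i) ∨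
  (i' = i ∧ a' = a ∧ b' = b ∧ m' = m)

theorem K_mirror {a b m c d e f g i : ℕ} (h : K a b m c d e f g i) : K d c m b a i g f e := by
  unfold K at h ⊢
  rcases h with h | h | h | h | h | h | h | h
  · left; omega
  · right; right; right; left; omega
  · right; right; right; right; left; omega
  · right; left; omega
  · right; right; left; omega
  · right; right; right; right; right; left; omega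
  · right; right; right; right; right; right; right; omega
  · right; right; right; right; right; right; left; omega

/-- There is a reply in `K` (or the position is in `K`). -/
def Rep (a b m c d e f g i : ℕ) : Prop :=
  ∃ a' b' m' c' d' e' f' g' i' : ℕ, K a' b' m' c' d' e' f' g' i' ∧
    (a' ≤ a ∧ b' ≤ b ∧ m' ≤ m ∧ c' ≤ c ∧ d' ≤ d ∧ e' ≤ e ∧ f' ≤ f ∧ g' ≤ g ∧ i' ≤ i) ∧
    Keep a b m c d e f g i a' b' m' c' d' e' f' g' i'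

theorem Rep_mirror {a b m c d e f g i : ℕ} (h : Rep d c m b a i g f e) :
    Rep a b m c d e f g i := by
  obtain ⟨d', c', m', b', a', i', g', f', e', h1, h2, h3⟩ := h
  refine ⟨a', b', m', c', d', e', f', g', i', K_mirror h1, by omega, ?_⟩
  clear h1 h2
  rcases h3 with ⟨p1, p2, p3, p4⟩ | ⟨p1, p2, p3, p4⟩ | ⟨p1, p2, p3, p4⟩ | ⟨p1, p2⟩ | ⟨p1, p2⟩ |
    ⟨p1, p2, p3, p4⟩
  · exact Or.inr (Or.inl ⟨p4, p3, p2, p1⟩)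
  · exact Or.inl ⟨p4, p3, p2, p1⟩
  · exact Or.inr (Or.inr (Or.inr (Or.inr (Or.inr ⟨p4, p3, p2, p1⟩))))
  · exact Or.inr (Or.inr (Or.inr (Or.inr (Or.inl ⟨p2, p1⟩))))
  · exact Or.inr (Or.inr (Or.inr (Or.inl ⟨p2, p1⟩)))
  · exact Or.inr (Or.inr (Or.inl ⟨p4, p3, p2, p1⟩))

theorem K_keep1 {a b m c d e f g i d' e' f' g' i' : ℕ} (h1 : K a b m c d e f g i)
    (h2 : K a b m c d' e' f' g' i') (y5 : d' ≤ d) (y6 : e' ≤ e) (y7 : f' ≤ f) (y8 : g' ≤ g)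
    (y9 : i' ≤ i) : d' = d ∧ e' = e ∧ f' = f ∧ g' = g ∧ i' = i := by
  unfold K at h1 h2
  rcases h1 with ⟨x1, x2, x3, x4, x5⟩ | ⟨x1, x2, x3, x4, x5⟩ | ⟨x1, x2, x3, x4, x5⟩ |
    ⟨x1, x2, x3, x4, x5⟩ | ⟨x1, x2, x3, x4, x5⟩ | ⟨x1, x2, x3, x4, x5, x6, x7, x8⟩ |
    ⟨x1, x2, x3, x4, x5⟩ | ⟨x1, x2, x3, x4, x5⟩
  all_goals
    rcases h2 with ⟨z1, z2, z3, z4, z5⟩ | ⟨z1, z2, z3, z4, z5⟩ | ⟨z1, z2, z3, z4, z5⟩ |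
      ⟨z1, z2, z3, z4, z5⟩ | ⟨z1, z2, z3, z4, z5⟩ | ⟨z1, z2, z3, z4, z5, z6, z7, z8⟩ |
      ⟨z1, z2, z3, z4, z5⟩ | ⟨z1, z2, z3, z4, z5⟩ <;> omega

theorem K_keep3 {a b m c d e f g i a' b' f' g' i' : ℕ} (h1 : K a b m c d e f g i)
    (h2 : K a' b' m c d e f' g' i') (y5 : a' ≤ a) (y6 : b' ≤ b) (y7 : f' ≤ f) (y8 : g' ≤ g)
    (y9 : i' ≤ i) : a' = a ∧ b' = b ∧ f' = f ∧ g' = g ∧ i' = i := by
  unfold K at h1 h2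
  rcases h1 with ⟨x1, x2, x3, x4, x5⟩ | ⟨x1, x2, x3, x4, x5⟩ | ⟨x1, x2, x3, x4, x5⟩ |
    ⟨x1, x2, x3, x4, x5⟩ | ⟨x1, x2, x3, x4, x5⟩ | ⟨x1, x2, x3, x4, x5, x6, x7, x8⟩ |
    ⟨x1, x2, x3, x4, x5⟩ | ⟨x1, x2, x3, x4, x5⟩
  all_goals
    rcases h2 with ⟨z1, z2, z3, z4, z5⟩ | ⟨z1, z2, z3, z4, z5⟩ | ⟨z1, z2, z3, z4, z5⟩ |
      ⟨z1, z2, z3, z4, z5⟩ | ⟨z1, z2, z3, z4, z5⟩ | ⟨z1, z2, z3, z4, z5, z6, z7, z8⟩ |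
      ⟨z1, z2, z3, z4, z5⟩ | ⟨z1, z2, z3, z4, z5⟩ <;> omega

theorem K_keep4 {a b m c d e f g i a' b' m' c' d' g' i' : ℕ} (h1 : K a b m c d e f g i)
    (h2 : K a' b' m' c' d' e f g' i') (y1 : a' ≤ a) (y2 : b' ≤ b) (y3 : m' ≤ m) (y4 : c' ≤ c)
    (y5 : d' ≤ d) (y6 : g' ≤ g) (y7 : i' ≤ i) :
    a' = a ∧ b' = b ∧ m' = m ∧ c' = c ∧ d' = d ∧ g' = g ∧ i' = i := by
  unfold K at h1 h2
  rcases h1 with ⟨x1, x2, x3, x4, x5⟩ | ⟨x1, x2, x3, x4, x5⟩ | ⟨x1, x2, x3, x4, x5⟩ |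
    ⟨x1, x2, x3, x4, x5⟩ | ⟨x1, x2, x3, x4, x5⟩ | ⟨x1, x2, x3, x4, x5, x6, x7, x8⟩ |
    ⟨x1, x2, x3, x4, x5⟩ | ⟨x1, x2, x3, x4, x5⟩
  all_goals
    rcases h2 with ⟨z1, z2, z3, z4, z5⟩ | ⟨z1, z2, z3, z4, z5⟩ | ⟨z1, z2, z3, z4, z5⟩ |
      ⟨z1, z2, z3, z4, z5⟩ | ⟨z1, z2, z3, z4, z5⟩ | ⟨z1, z2, z3, z4, z5, z6, z7, z8⟩ |
      ⟨z1, z2, z3, z4, z5⟩ | ⟨z1, z2, z3, z4, z5⟩ <;> omega

theorem K_no_move {a b m c d e f g i a' b' m' c' d' e' f' g' i' : ℕ} (h1 : K a b m c d e f g i)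
    (h2 : K a' b' m' c' d' e' f' g' i')
    (h3 : a' ≤ a ∧ b' ≤ b ∧ m' ≤ m ∧ c' ≤ c ∧ d' ≤ d ∧ e' ≤ e ∧ f' ≤ f ∧ g' ≤ g ∧ i' ≤ i)
    (h4 : Keep a b m c d e f g i a' b' m' c' d' e' f' g' i') :
    a' = a ∧ b' = b ∧ m' = m ∧ c' = c ∧ d' = d ∧ e' = e ∧ f' = f ∧ g' = g ∧ i' = i := by
  obtain ⟨y1, y2, y3, y4, y5, y6, y7, y8, y9⟩ := h3
  rcases h4 with ⟨rfl, rfl, rfl, rfl⟩ | ⟨rfl, rfl, rfl, rfl⟩ | ⟨rfl, rfl, rfl, rfl⟩ | ⟨rfl, rfl⟩ |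
    ⟨rfl, rfl⟩ | ⟨rfl, rfl, rfl, rfl⟩
  · have := K_keep1 h1 h2 y5 y6 y7 y8 y9
    omega
  · have := K_keep1 (K_mirror h1) (K_mirror h2) y1 y9 y8 y7 y6
    omega
  · have := K_keep3 h1 h2 y1 y2 y7 y8 y9
    omega
  · have := K_keep4 h1 h2 y1 y2 y3 y4 y5 y8 y9
    omega
  · have := K_keep4 (K_mirror h1) (K_mirror h2) y5 y4 y3 y2 y1 y7 y6
    omega
  · have := K_keep3 (K_mirror h1) (K_mirror h2) y5 y4 y8 y7 y6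
    omega

end Pool.Agent.W_30d1b9t_h50
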