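import Pool.Agent.W_30d1b9t_h50.Ker

/-!
# MP_30d1b9_co: replies in the nine stack game (second part)
-/

namespace Pool.Agent.W_30d1b9t_h50

theorem rep_1T1 (a b m c d e f g i : ℕ)
    (x1 : b ≤ f) (x2 : c ≤ g) (x3 : c ≤ a + b) (x4 : a + b ≤ c + d) (x5 : a + b + m ≤ e + f)
    (x6 : a + b + m ≤ g + i) :
    Rep a b m c d e f g i := by
  obtain ⟨f1, hf1⟩ : ∃ x, x = max b (a + b + m - e) := ⟨_, rfl⟩
  obtain ⟨g1, hg1⟩ : ∃ x, x = max c (a + b + m - i) := ⟨_, rfl⟩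
  refine ⟨a, b, m, c, a + b - c, a + b + m - f1, f1, g1, a + b + m - g1, ?_, by omega, ?_⟩
  · unfold K
    left
    omega
  · unfold Keep
    left
    omega

theorem rep_1T2 (a b m c d e f g i : ℕ)
    (x1 : 1 ≤ b) (x2 : a ≤ c + d) (x3 : a + m + 1 ≤ e) (x4 : a + b + m ≤ e + f)
    (x5 : 2 * a + b + m ≤ c + d + e) (x6 : c + 1 ≤ a + b) (x7 : c ≤ a + f) (x8 : c + 1 ≤ g)
    (x9 : a + b + m ≤ g + i) :
    Rep a b m c d e f g i := by
  obtain ⟨f1, hf1⟩ : ∃ x, x = max (a + b + m - e) (c - a) := ⟨_, rfl⟩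
  obtain ⟨g1, hg1⟩ : ∃ x, x = max (c + 1) (a + b + m - i) := ⟨_, rfl⟩
  refine ⟨a, b, m, c, a + f1 - c, a + b + m - f1, f1, g1, a + b + m - g1, ?_, by omega, ?_⟩
  · unfold K
    right
    left
    omega
  · unfold Keep
    left
    omega

theorem rep_1T2p (a b m c d e f g i : ℕ)
    (x1 : c ≤ a) (x2 : a ≤ c + d) (x3 : a + b + m ≤ e) (x4 : c ≤ g) (x5 : a + b + m ≤ g + i) :
    Rep a b m c d e f g i := by
  obtain ⟨g1, hg1⟩ : ∃ x, x = max c (a + b + m - i) := ⟨_, rfl⟩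
  refine ⟨a, b, m, c, a - c, a + b + m, 0, g1, a + b + m - g1, ?_, by omega, ?_⟩
  · unfold K
    right; right
    left
    omega
  · unfold Keep
    left
    omega

theorem rep_1T3 (a b m c d e f g i : ℕ)
    (x1 : 1 ≤ c) (x2 : b + 1 ≤ f) (x3 : a + b + 1 ≤ c + d) (x4 : a + b ≤ d + g)
    (x5 : a + b + m + 1 ≤ e + f) (x6 : a + b + m + c ≤ e + f + g) (x7 : m + c ≤ e + f)
    (x8 : a + b + m + 2 ≤ c + i) (x9 : a + b + m + c ≤ 2 * g + i) (x10 : m + c ≤ a + b + i) :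
    Rep a b m c d e f g i := by
  obtain ⟨v, hv⟩ : ∃ x, x = max (max (a + b - d) (a + b + c + m - (e + f))) ((a + b + c + m - i + 1) / 2) := ⟨_, rfl⟩
  obtain ⟨f1, hf1⟩ : ∃ x, x = max (b + 1) (a + b + c + m - v - e) := ⟨_, rfl⟩
  have v1 : v < c := by omega
  have v2 : v ≤ a + b := by omega
  have v3 : v ≤ g := by omega
  have v4 : 2 * v ≤ a + b + c + m := by omega
  have v5 : a + b ≤ v + d := by omega
  have v6 : a + b + c + m ≤ v + (e + f) := by omega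
  have v7 : a + b + c + m ≤ 2 * v + i := by omega
  have w1 : b + 1 ≤ f1 := by omega
  have w2 : f1 ≤ f := by clear x6 x7 x8 x9 x10 hv v7 v4 v3; omega
  have w3 : a + b + c + m ≤ v + e + f1 := by clear x6 x7 x8 x9 x10 hv v7 v4 v3; omega
  have w4 : f1 + v ≤ a + b + c + m := by clear x6 x7 x8 x9 x10 hv v7 v4 v3; omega
  clear hv hf1
  refine ⟨a, b, m, c, a + b - v, a + b + c + m - v - f1, f1, v, a + b + c + m - v - v, ?_, by omega, ?_⟩
  · unfold K
    right; right; right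
    left
    omega
  · unfold Keep
    left
    omega

theorem rep_1T3p (a b m c d e f g i : ℕ)
    (x1 : b ≤ f) (x2 : a + b ≤ d) (x3 : a + b + m + c ≤ i) (x4 : a + b + m + c ≤ e + f) :
    Rep a b m c d e f g i := by
  obtain ⟨f1, hf1⟩ : ∃ x, x = max b (a + b + c + m - e) := ⟨_, rfl⟩
  refine ⟨a, b, m, c, a + b, a + b + c + m - f1, f1, 0, a + b + c + m, ?_, by omega, ?_⟩
  · unfold K
    right; right; right; right
    left
    omega
  · unfold Keep
    left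
    omega

theorem rep_1T4 (a b m c d e f g i : ℕ)
    (x1 : c ≤ a + b) (x2 : a + b ≤ c + d) (x3 : 2 ≤ b) (x4 : 2 ≤ c) (x5 : a + m + 1 ≤ e)
    (x6 : a + b + m + 1 ≤ c + i) (x7 : 1 ≤ f) (x8 : b + 1 ≤ c + f) (x9 : a + b + m ≤ e + f)
    (x10 : a + 2 * b + m ≤ c + f + i) (x11 : c + 1 ≤ b + g) (x12 : 1 ≤ g)
    (x13 : a + m + c ≤ e + g) (x14 : a + b + m ≤ g + i) :
    Rep a b m c d e f g i := by
  obtain ⟨j, hj⟩ : ∃ x, x = max 1 (max (b - f) (c - g)) := ⟨_, rfl⟩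
  refine ⟨a, b, m, c, a + b - c, a + m + j, b - j, c - j, a + b + m - (c - j), ?_, by omega, ?_⟩
  · unfold K
    right; right; right; right; right
    left
    omega
  · unfold Keep
    left
    omega

theorem rep_1T5 (a b m c d e f g i : ℕ)
    (x1 : a ≤ c + d) (x2 : a ≤ d + g) (x3 : a + b + m ≤ e) (x4 : a + b + m + c ≤ e + g)
    (x5 : b + m + c ≤ e) (x6 : a + b + m ≤ c + i) (x7 : a + b + m + c ≤ 2 * g + i)
    (x8 : b + m + c ≤ a + i) :
    Rep a b m c d e f g i := by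
  obtain ⟨v, hv⟩ : ∃ x, x = max (max (a - d) (a + b + c + m - e)) ((a + b + c + m - i + 1) / 2) := ⟨_, rfl⟩
  refine ⟨a, b, m, c, a - v, a + b + c + m - v, 0, v, a + b + c + m - v - v, ?_, by omega, ?_⟩
  · unfold K
    right; right; right; right; right; right
    left
    omega
  · unfold Keep
    left
    omega

theorem rep_1T6 (a b m c d e f g i : ℕ)
    (x1 : a + b + m + c ≤ i) (x2 : a ≤ d) (x3 : a + b + m + c ≤ e + f) (x4 : a + m + c ≤ e)
    (x5 : 2 * a + b + m + c ≤ d + e) :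
    Rep a b m c d e f g i := by
  obtain ⟨u, hu⟩ : ∃ x, x = a + b + c + m - e := ⟨_, rfl⟩
  refine ⟨a, b, m, c, a + u, a + b + c + m - u, u, 0, a + b + c + m, ?_, by omega, ?_⟩
  · unfold K
    right; right; right; right; right; right; right
    omega
  · unfold Keep
    left
    omega

end Pool.Agent.W_30d1b9t_h50
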