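import Pool.Agent.W_30d1b9t_h50.Ker

/-!
# MP_30d1b9_co: replies in the nine stack game (third part)
-/

namespace Pool.Agent.W_30d1b9t_h50

theorem rep_3T1 (a b m c d e f g i : ℕ)
    (x1 : e ≤ m + c + d) (x2 : m + c + d ≤ e + f) (x3 : c + d ≤ a + b) (x4 : e ≤ a + m)
    (x5 : c ≤ g) (x6 : m + c + d ≤ g + i) :
    Rep a b m c d e f g i := by
  obtain ⟨a1, ha1⟩ : ∃ x, x = min a (c + d) := ⟨_, rfl⟩
  obtain ⟨g1, hg1⟩ : ∃ x, x = max c (c + d + m - i) := ⟨_, rfl⟩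
  refine ⟨a1, c + d - a1, m, c, d, e, c + d + m - e, g1, c + d + m - g1, ?_, by omega, ?_⟩
  · unfold K
    left
    omega
  · unfold Keep
    right; right
    left
    omega

theorem rep_3T2 (a b m c d e f g i : ℕ)
    (x1 : e ≤ b + m + c + d) (x2 : e ≤ g + i) (x3 : c + d ≤ a + f)
    (x4 : c + d + e ≤ 2 * a + b + m) (x5 : c + d + e ≤ a + g + i) (x6 : m + c + d + 1 ≤ e + f)
    (x7 : m + 1 ≤ e) (x8 : m + c + d + 2 ≤ b + e) (x9 : m + c + d + 1 ≤ g + i) (x10 : c + 1 ≤ g) :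
    Rep a b m c d e f g i := by
  obtain ⟨u, hu⟩ : ∃ x, x = max (c + d - a) (m + c + d + 1 - e) := ⟨_, rfl⟩
  obtain ⟨g1, hg1⟩ : ∃ x, x = max (c + 1) (e + u - i) := ⟨_, rfl⟩
  refine ⟨c + d - u, e + u + u - m - c - d, m, c, d, e, u, g1, e + u - g1, ?_, by omega, ?_⟩
  · unfold K
    right
    left
    omega
  · unfold Keep
    right; right
    left
    omega

theorem rep_3T2p (a b m c d e f g i : ℕ)
    (x1 : c + d ≤ a) (x2 : m + c + d ≤ e) (x3 : e ≤ b + m + c + d) (x4 : c ≤ g) (x5 : e ≤ g + i) :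
    Rep a b m c d e f g i := by
  obtain ⟨g1, hg1⟩ : ∃ x, x = max c (e - i) := ⟨_, rfl⟩
  refine ⟨c + d, e - c - d - m, m, c, d, e, 0, g1, e - g1, ?_, by omega, ?_⟩
  · unfold K
    right; right
    left
    omega
  · unfold Keep
    right; right
    left
    omega

theorem rep_3T3 (a b m c d e f g i : ℕ)
    (x1 : e + 1 ≤ m + c + d) (x2 : m + c + d ≤ e + f) (x3 : 1 ≤ c) (x4 : m + d + 1 ≤ i)
    (x5 : m + c + d ≤ g + i) (x6 : d ≤ a + b) (x7 : e + 1 ≤ a + m + c)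
    (x8 : m + c + 2 * d ≤ a + b + i) (x9 : d + e + 1 ≤ a + i) :
    Rep a b m c d e f g i := by
  obtain ⟨v, hv⟩ : ∃ x, x = c + d + m - i := ⟨_, rfl⟩
  obtain ⟨a1, ha1⟩ : ∃ x, x = min a (d + v) := ⟨_, rfl⟩
  refine ⟨a1, d + v - a1, m, c, d, e, c + d + m - e, v, c + d + m - v, ?_, by omega, ?_⟩
  · unfold K
    right; right; right
    left
    omega
  · unfold Keep
    right; right
    left
    omega

theorem rep_3T3p (a b m c d e f g i : ℕ)
    (x1 : e ≤ m + c + d) (x2 : m + c + d ≤ e + f) (x3 : m + c + d ≤ i) (x4 : d ≤ a + b)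
    (x5 : e ≤ a + m + c) :
    Rep a b m c d e f g i := by
  obtain ⟨a1, ha1⟩ : ∃ x, x = min a d := ⟨_, rfl⟩
  refine ⟨a1, d - a1, m, c, d, e, c + d + m - e, 0, c + d + m, ?_, by omega, ?_⟩
  · unfold K
    right; right; right; right
    left
    omega
  · unfold Keep
    right; right
    left
    omega

theorem rep_3T4 (a b m c d e f g i : ℕ)
    (x1 : e + 1 ≤ m + c + d) (x2 : m + c + d ≤ e + f) (x3 : 2 ≤ c) (x4 : m + c + d + 1 ≤ b + e)
    (x5 : m + d + 1 ≤ i) (x6 : m + 1 ≤ e) (x7 : 1 ≤ g) (x8 : m + 2 * c + d ≤ b + e + g)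
    (x9 : m + c + d ≤ g + i) (x10 : m + c ≤ e + g) (x11 : e + 1 ≤ a + m + c) (x12 : c + d ≤ a + b)
    (x13 : d + e ≤ a + i) :
    Rep a b m c d e f g i := by
  obtain ⟨j, hj⟩ : ∃ x, x = max 1 (max (c - g) (e - m - a)) := ⟨_, rfl⟩
  refine ⟨e - m - j, c + d + m - e + j, m, c, d, e, c + d + m - e, c - j, d + m + j, ?_, by omega, ?_⟩
  · unfold K
    right; right; right; right; right
    left
    omega
  · unfold Keep
    right; right
    left
    omega

theorem rep_3T5 (a b m c d e f g i : ℕ)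
    (x1 : m + c + d ≤ e) (x2 : e ≤ b + m + c + d) (x3 : e ≤ c + i) (x4 : e ≤ g + i) (x5 : d ≤ a)
    (x6 : d + e ≤ a + i) :
    Rep a b m c d e f g i := by
  obtain ⟨v, hv⟩ : ∃ x, x = e - i := ⟨_, rfl⟩
  refine ⟨d + v, e - m - c - d, m, c, d, e, 0, v, e - v, ?_, by omega, ?_⟩
  · unfold K
    right; right; right; right; right; right
    left
    omega
  · unfold Keep
    right; right
    left
    omega

theorem rep_3T6 (a b m c d e f g i : ℕ)
    (x1 : e ≤ b + m + c + d) (x2 : e ≤ i) (x3 : d ≤ a + f) (x4 : d + e ≤ 2 * a + b + m + c)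
    (x5 : d + e ≤ a + i) (x6 : m + c + d ≤ e + f) (x7 : m + c ≤ e) (x8 : m + c + d ≤ b + e)
    (x9 : m + c + d ≤ i) :
    Rep a b m c d e f g i := by
  obtain ⟨u, hu⟩ : ∃ x, x = max (d - a) (c + d + m - e) := ⟨_, rfl⟩
  refine ⟨d - u, e + u + u - d - m - c, m, c, d, e, u, 0, e + u, ?_, by omega, ?_⟩
  · unfold K
    right; right; right; right; right; right; right
    omega
  · unfold Keep
    right; right
    left
    omega

end Pool.Agent.W_30d1b9t_h50
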