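import Pool.Agent.W_30d1b9t_h50.RepA1
import Pool.Agent.W_30d1b9t_h50.RepA2
import Pool.Agent.W_30d1b9t_h50.RepA3

/-!
# MP_30d1b9_co: replies in the nine stack game
-/
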