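import Pool.Agent.W_30d1b9t_h50.Ker

/-!
# MP_30d1b9_co: replies in the nine stack game (first part)
-/

namespace Pool.Agent.W_30d1b9t_h50

theorem rep_4T1 (a b m c d e f g i : ℕ)
    (x1 : e + f ≤ g + i) (x2 : e + f ≤ a + b + m) (x3 : e ≤ a + m) (x4 : e + f ≤ m + c + d)
    (x5 : e + f ≤ m + d + g) :
    Rep a b m c d e f g i := by
  obtain ⟨m1, hm1⟩ : ∃ x, x = min m (e + f) := ⟨_, rfl⟩
  obtain ⟨r, hr⟩ : ∃ x, x = e + f - m1 := ⟨_, rfl⟩
  obtain ⟨a1, ha1⟩ : ∃ x, x = min a r := ⟨_, rfl⟩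
  obtain ⟨d1, hd1⟩ : ∃ x, x = min d r := ⟨_, rfl⟩
  obtain ⟨g1, hg1⟩ : ∃ x, x = min g (e + f) := ⟨_, rfl⟩
  refine ⟨a1, r - a1, m1, r - d1, d1, e, f, g1, e + f - g1, ?_, by omega, ?_⟩
  · unfold K
    left
    omega
  · unfold Keep
    right; right; right
    left
    omega

theorem rep_4T2 (a b m c d e f g i : ℕ)
    (x1 : f + 1 ≤ b) (x2 : 1 ≤ e) (x3 : 1 ≤ g) (x4 : e + f ≤ g + i) (x5 : e + f ≤ a + b + m)
    (x6 : f ≤ c + d) (x7 : f + 1 ≤ d + g) (x8 : e + 2 * f ≤ b + m + c + d)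
    (x9 : e + 2 * f + 1 ≤ b + m + d + g) :
    Rep a b m c d e f g i := by
  obtain ⟨u, hu⟩ : ∃ x, x = e + f - b - m := ⟨_, rfl⟩
  obtain ⟨m1, hm1⟩ : ∃ x, x = min m (e - u - 1) := ⟨_, rfl⟩
  obtain ⟨d1, hd1⟩ : ∃ x, x = min d (u + f) := ⟨_, rfl⟩
  obtain ⟨g1, hg1⟩ : ∃ x, x = min g (e + f) := ⟨_, rfl⟩
  refine ⟨u, e + f - u - m1, m1, u + f - d1, d1, e, f, g1, e + f - g1, ?_, by omega, ?_⟩
  · unfold K
    right
    left
    omega
  · unfold Keep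
    right; right; right
    left
    omega

theorem rep_4T2p (a b m c d e f g i : ℕ)
    (x1 : f ≤ 0) (x2 : e ≤ g + i) (x3 : e ≤ a + b + m) (x4 : e ≤ b + m + c + d)
    (x5 : e ≤ b + m + d + g) :
    Rep a b m c d e f g i := by
  obtain ⟨u, hu⟩ : ∃ x, x = e - b - m := ⟨_, rfl⟩
  obtain ⟨m1, hm1⟩ : ∃ x, x = min m (e - u) := ⟨_, rfl⟩
  obtain ⟨d1, hd1⟩ : ∃ x, x = min d u := ⟨_, rfl⟩
  obtain ⟨g1, hg1⟩ : ∃ x, x = min g e := ⟨_, rfl⟩
  refine ⟨u, e - u - m1, m1, u - d1, d1, e, f, g1, e - g1, ?_, by omega, ?_⟩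
  · unfold K
    right; right
    left
    omega
  · unfold Keep
    right; right; right
    left
    omega

theorem rep_4T3 (a b m c d e f g i : ℕ)
    (x1 : 1 ≤ f) (x2 : 1 ≤ i) (x3 : 1 ≤ c) (x4 : e + f ≤ g + i) (x5 : e + f + 1 ≤ c + i)
    (x6 : e + f ≤ m + c + d) (x7 : e + f ≤ a + b + i) (x8 : e + 1 ≤ a + i)
    (x9 : e + f ≤ a + b + m + c) (x10 : e + 1 ≤ a + m + c)
    (x11 : 2 * e + 2 * f ≤ a + b + m + c + i) (x12 : 2 * e + f + 1 ≤ a + m + c + i) :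
    Rep a b m c d e f g i := by
  obtain ⟨v, hv⟩ : ∃ x, x = e + f - i := ⟨_, rfl⟩
  obtain ⟨u, hu⟩ : ∃ x, x = e + f - c - m := ⟨_, rfl⟩
  obtain ⟨m1, hm1⟩ : ∃ x, x = min m (e + f - u - v - 1) := ⟨_, rfl⟩
  obtain ⟨a1, ha1⟩ : ∃ x, x = min a (u + v) := ⟨_, rfl⟩
  refine ⟨a1, u + v - a1, m1, e + f - u - m1, u, e, f, v, e + f - v, ?_, by omega, ?_⟩
  · unfold K
    right; right; right
    left
    omega
  · unfold Keep
    right; right; right
    left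
    omega

theorem rep_4T3p (a b m c d e f g i : ℕ)
    (x1 : e + f ≤ i) (x2 : e + f ≤ m + c + d) (x3 : e + f ≤ a + b + m + c) (x4 : e ≤ a + m + c) :
    Rep a b m c d e f g i := by
  obtain ⟨u, hu⟩ : ∃ x, x = e + f - c - m := ⟨_, rfl⟩
  obtain ⟨m1, hm1⟩ : ∃ x, x = min m (e + f - u) := ⟨_, rfl⟩
  obtain ⟨a1, ha1⟩ : ∃ x, x = min a u := ⟨_, rfl⟩
  refine ⟨a1, u - a1, m1, e + f - u - m1, u, e, f, 0, e + f, ?_, by omega, ?_⟩
  · unfold K
    right; right; right; right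
    left
    omega
  · unfold Keep
    right; right; right
    left
    omega

theorem rep_4T4 (a b m c d e f g i : ℕ)
    (x1 : 1 ≤ f) (x2 : f + 1 ≤ b) (x3 : 1 ≤ e) (x4 : 1 ≤ g) (x5 : 1 ≤ i) (x6 : 2 ≤ c)
    (x7 : e + f ≤ g + i) (x8 : e + f ≤ a + b + m) (x9 : e + f ≤ m + c + d)
    (x10 : e + 1 ≤ a + m + c) (x11 : e + f + 1 ≤ c + i) (x12 : e ≤ a + i)
    (x13 : 2 * e + f ≤ a + m + c + i) (x14 : f ≤ d + g) (x15 : f + 1 ≤ c + d)
    (x16 : e + 2 * f ≤ b + m + d + g) (x17 : e + 2 * f + 1 ≤ b + m + c + d) :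
    Rep a b m c d e f g i := by
  obtain ⟨v, hv⟩ : ∃ x, x = max (max 1 (e + f - i)) (max (f - d) (e + f + f - d - m - b)) := ⟨_, rfl⟩
  obtain ⟨w, hw⟩ : ∃ x, x = max 1 (max (e - a) (e + f - v - d)) := ⟨_, rfl⟩
  obtain ⟨j, hj⟩ : ∃ x, x = max 1 (w - m) := ⟨_, rfl⟩
  have v1 : 1 ≤ v := by clear * - hv; omega
  have v2 : e + f ≤ v + i := by clear * - hv; omega
  have v3 : f ≤ v + d := by clear * - hv; omega
  have v4 : e + f + f ≤ v + d + m + b := by clear * - hv; omega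
  have v5 : v = 1 ∨ v + i = e + f ∨ v + d = f ∨ v + d + m + b = e + f + f := by clear * - hv; omega
  clear hv
  have w1 : 1 ≤ w := by clear * - hw; omega
  have w2 : e ≤ w + a := by clear * - hw; omega
  have w3 : e + f ≤ w + v + d := by clear * - hw; omega
  have w4 : w = 1 ∨ w + a = e ∨ w + v + d = e + f := by clear * - hw; omega
  clear hw
  have j1 : 1 ≤ j := by clear * - hj; omega
  have j2 : w ≤ j + m := by clear * - hj; omega
  have j3 : j = 1 ∨ j + m = w := by clear * - hj; omega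
  clear hj
  have y1 : w ≤ e := by omega
  have y2 : j ≤ w := by omega
  have y3 : v + w ≤ e + f := by omega
  have y4 : v ≤ g := by omega
  have y5 : f + j ≤ b := by omega
  have y6 : v + j ≤ c := by omega
  clear v5 w4 j3
  refine ⟨e - w, f + j, w - j, v + j, e + f - v - w, e, f, v, e + f - v, ?_, by omega, ?_⟩
  · unfold K
    right; right; right; right; right
    left
    omega
  · unfold Keep
    right; right; right
    left
    omega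

theorem rep_4T5 (a b m c d e f g i : ℕ)
    (x1 : f ≤ 0) (x2 : e ≤ g + i) (x3 : e ≤ c + i) (x4 : e ≤ a + i) (x5 : e ≤ b + m + c + d)
    (x6 : e ≤ a + b + m + c) (x7 : 2 * e ≤ a + b + m + c + i) :
    Rep a b m c d e f g i := by
  obtain ⟨v, hv⟩ : ∃ x, x = e - i := ⟨_, rfl⟩
  obtain ⟨u, hu⟩ : ∃ x, x = e - b - m - c := ⟨_, rfl⟩
  obtain ⟨c1, hc1⟩ : ∃ x, x = min c (e - u) := ⟨_, rfl⟩
  obtain ⟨m1, hm1⟩ : ∃ x, x = min m (e - u - c1) := ⟨_, rfl⟩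
  refine ⟨u + v, e - u - c1 - m1, m1, c1, u, e, f, v, e - v, ?_, by omega, ?_⟩
  · unfold K
    right; right; right; right; right; right
    left
    omega
  · unfold Keep
    right; right; right
    left
    omega

theorem rep_4T6 (a b m c d e f g i : ℕ)
    (x1 : e + f ≤ i) (x2 : f ≤ b) (x3 : f ≤ d) (x4 : e + f ≤ a + b + m + c)
    (x5 : e + 2 * f ≤ b + m + c + d) :
    Rep a b m c d e f g i := by
  obtain ⟨u, hu⟩ : ∃ x, x = e + f - b - m - c := ⟨_, rfl⟩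
  obtain ⟨b1, hb1⟩ : ∃ x, x = min b (e + f - u) := ⟨_, rfl⟩
  obtain ⟨m1, hm1⟩ : ∃ x, x = min m (e + f - u - b1) := ⟨_, rfl⟩
  refine ⟨u, b1, m1, e + f - u - b1 - m1, u + f, e, f, 0, e + f, ?_, by omega, ?_⟩
  · unfold K
    right; right; right; right; right; right; right
    omega
  · unfold Keep
    right; right; right
    left
    omega

end Pool.Agent.W_30d1b9t_h50
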