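import Pool.Agent.W_30d1b9t_h50.RepA

/-!
# MP_30d1b9_co: every position of the nine stack game has a reply in the kernel
-/

namespace Pool.Agent.W_30d1b9t_h50

theorem Rep_of_le (a b m c d e f g i : ℕ) (y : e + f ≤ g + i) : Rep a b m c d e f g i := by
  by_cases y0 : a + m + 1 ≤ e
  · by_cases y1 : a + b + m + 1 ≤ e + f
    · by_cases y2 : a + b + m ≤ i
      · by_cases y3 : a + b + m + c ≤ i
        · by_cases y4 : a + m + c ≤ e
          · by_cases y5 : d ≤ a
            · by_cases y6 : e ≤ b + m + c + d
              · exact rep_3T5 a b m c d e f g i (by omega) (by omega) (by omega) (by omega)
                   (by omega) (by omega)
              · exact Rep_mirror (rep_1T5 d c m b a i g f e (by omega) (by omega) (by omega)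
                   (by omega) (by omega) (by omega) (by omega) (by omega))
            · by_cases y6 : e + f ≤ a + b + m + c
              · by_cases y7 : d ≤ a + f
                · exact rep_3T6 a b m c d e f g i (by omega) (by omega) (by omega) (by omega)
                     (by omega) (by omega) (by omega) (by omega) (by omega)
                · exact rep_4T6 a b m c d e f g i (by omega) (by omega) (by omega) (by omega)
                     (by omega)
              · by_cases y7 : d + e ≤ 2 * a + b + m + c
                · exact rep_3T6 a b m c d e f g i (by omega) (by omega) (by omega) (by omega)
                     (by omega) (by omega) (by omega) (by omega) (by omega)
                · exact rep_1T6 a b m c d e f g i (by omega) (by omega) (by omega) (by omega)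
                     (by omega)
          · by_cases y5 : a + b + m + c ≤ e + f
            · by_cases y6 : d ≤ a + b
              · by_cases y7 : e ≤ m + c + d
                · exact rep_3T3p a b m c d e f g i (by omega) (by omega) (by omega) (by omega)
                     (by omega)
                · by_cases y8 : e ≤ b + m + c + d
                  · exact rep_3T5 a b m c d e f g i (by omega) (by omega) (by omega) (by omega)
                       (by omega) (by omega)
                  · exact Rep_mirror (rep_1T5 d c m b a i g f e (by omega) (by omega) (by omega)
                       (by omega) (by omega) (by omega) (by omega) (by omega))
              · exact rep_1T3 a b m c d e f g i (by omega) (by omega) (by omega) (by omega)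
                   (by omega) (by omega) (by omega) (by omega) (by omega) (by omega)
            · by_cases y6 : m + c + d ≤ e + f
              · by_cases y7 : b + m + c + d ≤ e
                · exact Rep_mirror (rep_1T5 d c m b a i g f e (by omega) (by omega) (by omega)
                     (by omega) (by omega) (by omega) (by omega) (by omega))
                · by_cases y8 : m + c + d ≤ e
                  · exact rep_3T5 a b m c d e f g i (by omega) (by omega) (by omega) (by omega)
                       (by omega) (by omega)
                  · exact rep_3T3 a b m c d e f g i (by omega) (by omega) (by omega) (by omega)
                       (by omega) (by omega) (by omega) (by omega) (by omega)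
              · exact rep_4T3p a b m c d e f g i (by omega) (by omega) (by omega) (by omega)
        · by_cases y4 : a + i ≤ d + e
          · by_cases y5 : i ≤ b + e
            · by_cases y6 : e + f ≤ i
              · exact rep_4T6 a b m c d e f g i (by omega) (by omega) (by omega) (by omega)
                   (by omega)
              · by_cases y7 : e ≤ i
                · exact Rep_mirror (rep_3T5 d c m b a i g f e (by omega) (by omega) (by omega)
                     (by omega) (by omega) (by omega))
                · by_cases y8 : b + m + c + 2 * d ≤ a + i
                  · exact Rep_mirror (rep_1T6 d c m b a i g f e (by omega) (by omega) (by omega)
                       (by omega) (by omega))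
                  · exact Rep_mirror (rep_3T6 d c m b a i g f e (by omega) (by omega) (by omega)
                       (by omega) (by omega) (by omega) (by omega) (by omega) (by omega))
            · by_cases y6 : e + f ≤ i
              · exact rep_4T3p a b m c d e f g i (by omega) (by omega) (by omega) (by omega)
              · exact Rep_mirror (rep_3T2 d c m b a i g f e (by omega) (by omega) (by omega)
                   (by omega) (by omega) (by omega) (by omega) (by omega) (by omega) (by omega))
          · by_cases y5 : m + c + d + 1 ≤ e + f
            · by_cases y6 : m + c ≤ e
              · by_cases y7 : b + m + c + d ≤ e
                · exact Rep_mirror (rep_1T6 d c m b a i g f e (by omega) (by omega) (by omega)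
                     (by omega) (by omega))
                · by_cases y8 : d ≤ a + f
                  · by_cases y9 : m + c + d ≤ i
                    · by_cases y10 : i ≤ e
                      · exact rep_3T5 a b m c d e f g i (by omega) (by omega) (by omega)
                           (by omega) (by omega) (by omega)
                      · by_cases y11 : m + c + d + 2 ≤ b + e
                        · exact rep_3T6 a b m c d e f g i (by omega) (by omega) (by omega)
                             (by omega) (by omega) (by omega) (by omega) (by omega) (by omega)
                        · exact rep_3T3p a b m c d e f g i (by omega) (by omega) (by omega)
                             (by omega) (by omega)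
                    · by_cases y10 : a + b + i ≤ d + e + f
                      · exact rep_1T3 a b m c d e f g i (by omega) (by omega) (by omega)
                           (by omega) (by omega) (by omega) (by omega) (by omega) (by omega)
                           (by omega)
                      · by_cases y11 : m + c + d ≤ e
                        · exact rep_3T5 a b m c d e f g i (by omega) (by omega) (by omega)
                             (by omega) (by omega) (by omega)
                        · exact rep_3T3 a b m c d e f g i (by omega) (by omega) (by omega)
                             (by omega) (by omega) (by omega) (by omega) (by omega) (by omega)
                  · exact rep_4T6 a b m c d e f g i (by omega) (by omega) (by omega) (by omega)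
                       (by omega)
              · by_cases y7 : a + b + i ≤ m + c + 2 * d
                · exact Rep_mirror (rep_3T2 d c m b a i g f e (by omega) (by omega) (by omega)
                     (by omega) (by omega) (by omega) (by omega) (by omega) (by omega) (by omega))
                · exact rep_3T3 a b m c d e f g i (by omega) (by omega) (by omega) (by omega)
                     (by omega) (by omega) (by omega) (by omega) (by omega)
            · by_cases y6 : f ≤ 0
              · exact rep_4T5 a b m c d e f g i (by omega) (by omega) (by omega) (by omega)
                   (by omega) (by omega) (by omega)
              · by_cases y7 : a + m + c ≤ e
                · exact rep_4T6 a b m c d e f g i (by omega) (by omega) (by omega) (by omega)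
                     (by omega)
                · by_cases y8 : 2 * e + 2 * f ≤ a + b + m + c + i
                  · by_cases y9 : e + f ≤ a + b + i
                    · exact rep_4T3 a b m c d e f g i (by omega) (by omega) (by omega) (by omega)
                         (by omega) (by omega) (by omega) (by omega) (by omega) (by omega)
                         (by omega) (by omega)
                    · exact Rep_mirror (rep_3T2 d c m b a i g f e (by omega) (by omega) (by omega)
                         (by omega) (by omega) (by omega) (by omega) (by omega) (by omega)
                         (by omega))
                  · exact Rep_mirror (rep_3T2 d c m b a i g f e (by omega) (by omega) (by omega)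
                       (by omega) (by omega) (by omega) (by omega) (by omega) (by omega)
                       (by omega))
      · by_cases y3 : a + b + m ≤ e
        · by_cases y4 : b + m + c + 2 * d ≤ a + i
          · by_cases y5 : e ≤ b + m + c + d
            · by_cases y6 : m + c + d ≤ e
              · exact rep_3T5 a b m c d e f g i (by omega) (by omega) (by omega) (by omega)
                   (by omega) (by omega)
              · by_cases y7 : m + c + d ≤ e + f
                · exact rep_3T3 a b m c d e f g i (by omega) (by omega) (by omega) (by omega)
                     (by omega) (by omega) (by omega) (by omega) (by omega)
                · by_cases y8 : f ≤ 0
                  · exact rep_4T5 a b m c d e f g i (by omega) (by omega) (by omega) (by omega)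
                       (by omega) (by omega) (by omega)
                  · exact rep_4T3 a b m c d e f g i (by omega) (by omega) (by omega) (by omega)
                       (by omega) (by omega) (by omega) (by omega) (by omega) (by omega)
                       (by omega) (by omega)
            · by_cases y6 : i ≤ b + m + d
              · exact Rep_mirror (rep_1T3p d c m b a i g f e (by omega) (by omega) (by omega)
                   (by omega))
              · exact Rep_mirror (rep_1T6 d c m b a i g f e (by omega) (by omega) (by omega)
                   (by omega) (by omega))
          · by_cases y5 : b + m + d ≤ i
            · by_cases y6 : a + i ≤ d + e
              · exact Rep_mirror (rep_3T6 d c m b a i g f e (by omega) (by omega) (by omega)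
                   (by omega) (by omega) (by omega) (by omega) (by omega) (by omega))
              · by_cases y7 : m + c + d ≤ e
                · exact rep_3T5 a b m c d e f g i (by omega) (by omega) (by omega) (by omega)
                     (by omega) (by omega)
                · by_cases y8 : m + c + d + 1 ≤ e + f
                  · by_cases y9 : a + b + i ≤ m + c + 2 * d
                    · exact Rep_mirror (rep_3T2 d c m b a i g f e (by omega) (by omega) (by omega)
                         (by omega) (by omega) (by omega) (by omega) (by omega) (by omega)
                         (by omega))
                    · exact rep_3T3 a b m c d e f g i (by omega) (by omega) (by omega) (by omega)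
                         (by omega) (by omega) (by omega) (by omega) (by omega)
                  · by_cases y9 : f ≤ 0
                    · exact rep_4T5 a b m c d e f g i (by omega) (by omega) (by omega) (by omega)
                         (by omega) (by omega) (by omega)
                    · by_cases y10 : a + b + i ≤ d + e + f
                      · exact Rep_mirror (rep_3T2 d c m b a i g f e (by omega) (by omega)
                           (by omega) (by omega) (by omega) (by omega) (by omega) (by omega)
                           (by omega) (by omega))
                      · exact rep_4T3 a b m c d e f g i (by omega) (by omega) (by omega)
                           (by omega) (by omega) (by omega) (by omega) (by omega) (by omega)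
                           (by omega) (by omega) (by omega)
            · by_cases y6 : c + d ≤ a
              · exact Rep_mirror (rep_1T3p d c m b a i g f e (by omega) (by omega) (by omega)
                   (by omega))
              · exact Rep_mirror (rep_3T3p d c m b a i g f e (by omega) (by omega) (by omega)
                   (by omega) (by omega))
        · by_cases y4 : a + i + 1 ≤ d + e
          · by_cases y5 : c + d + e ≤ 2 * a + b + m
            · by_cases y6 : b + m + c ≤ e
              · exact Rep_mirror (rep_1T3 d c m b a i g f e (by omega) (by omega) (by omega)
                   (by omega) (by omega) (by omega) (by omega) (by omega) (by omega) (by omega))
              · exact rep_3T2 a b m c d e f g i (by omega) (by omega) (by omega) (by omega)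
                   (by omega) (by omega) (by omega) (by omega) (by omega) (by omega)
            · exact Rep_mirror (rep_3T3 d c m b a i g f e (by omega) (by omega) (by omega)
                 (by omega) (by omega) (by omega) (by omega) (by omega) (by omega))
          · by_cases y5 : m + c + d ≤ e
            · by_cases y6 : a + b + m + 1 ≤ c + i
              · by_cases y7 : e ≤ i
                · by_cases y8 : b + m + c + d ≤ e
                  · exact Rep_mirror (rep_1T5 d c m b a i g f e (by omega) (by omega) (by omega)
                       (by omega) (by omega) (by omega) (by omega) (by omega))
                  · exact rep_3T6 a b m c d e f g i (by omega) (by omega) (by omega) (by omega)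
                       (by omega) (by omega) (by omega) (by omega) (by omega)
                · by_cases y8 : b + m + c + d ≤ e
                  · exact Rep_mirror (rep_1T6 d c m b a i g f e (by omega) (by omega) (by omega)
                       (by omega) (by omega))
                  · exact rep_3T5 a b m c d e f g i (by omega) (by omega) (by omega) (by omega)
                       (by omega) (by omega)
              · by_cases y7 : b + m + c ≤ d + e
                · exact Rep_mirror (rep_1T3 d c m b a i g f e (by omega) (by omega) (by omega)
                     (by omega) (by omega) (by omega) (by omega) (by omega) (by omega) (by omega))
                · exact rep_3T2 a b m c d e f g i (by omega) (by omega) (by omega) (by omega)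
                     (by omega) (by omega) (by omega) (by omega) (by omega) (by omega)
            · by_cases y6 : a + i ≤ d + e
              · by_cases y7 : a + b + 1 ≤ c + d
                · exact Rep_mirror (rep_3T4 d c m b a i g f e (by omega) (by omega) (by omega)
                     (by omega) (by omega) (by omega) (by omega) (by omega) (by omega) (by omega)
                     (by omega) (by omega) (by omega))
                · by_cases y8 : a + m + c ≤ e
                  · exact rep_3T6 a b m c d e f g i (by omega) (by omega) (by omega) (by omega)
                       (by omega) (by omega) (by omega) (by omega) (by omega)
                  · exact rep_3T4 a b m c d e f g i (by omega) (by omega) (by omega) (by omega)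
                       (by omega) (by omega) (by omega) (by omega) (by omega) (by omega)
                       (by omega) (by omega) (by omega)
              · by_cases y7 : m + c + d + 1 ≤ e + f
                · by_cases y8 : a + m + c ≤ e
                  · exact rep_3T6 a b m c d e f g i (by omega) (by omega) (by omega) (by omega)
                       (by omega) (by omega) (by omega) (by omega) (by omega)
                  · by_cases y9 : a + b + i ≤ m + c + 2 * d
                    · exact Rep_mirror (rep_3T2 d c m b a i g f e (by omega) (by omega) (by omega)
                         (by omega) (by omega) (by omega) (by omega) (by omega) (by omega)
                         (by omega))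
                    · exact rep_3T3 a b m c d e f g i (by omega) (by omega) (by omega) (by omega)
                         (by omega) (by omega) (by omega) (by omega) (by omega)
                · by_cases y8 : a + b + i ≤ d + e + f
                  · exact Rep_mirror (rep_3T2 d c m b a i g f e (by omega) (by omega) (by omega)
                       (by omega) (by omega) (by omega) (by omega) (by omega) (by omega)
                       (by omega))
                  · exact rep_4T3 a b m c d e f g i (by omega) (by omega) (by omega) (by omega)
                       (by omega) (by omega) (by omega) (by omega) (by omega) (by omega)
                       (by omega) (by omega)
    · by_cases y2 : e + f ≤ i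
      · by_cases y3 : m + c ≤ e
        · by_cases y4 : f ≤ d
          · by_cases y5 : b + m + c + d ≤ e + 2 * f
            · exact Rep_mirror (rep_1T5 d c m b a i g f e (by omega) (by omega) (by omega)
                 (by omega) (by omega) (by omega) (by omega) (by omega))
            · exact rep_4T6 a b m c d e f g i (by omega) (by omega) (by omega) (by omega)
                 (by omega)
          · by_cases y5 : b + m + c ≤ d + e
            · exact Rep_mirror (rep_1T5 d c m b a i g f e (by omega) (by omega) (by omega)
                 (by omega) (by omega) (by omega) (by omega) (by omega))
            · exact rep_3T6 a b m c d e f g i (by omega) (by omega) (by omega) (by omega)
                 (by omega) (by omega) (by omega) (by omega) (by omega)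
        · by_cases y4 : m + c + d ≤ e + f
          · exact rep_3T3 a b m c d e f g i (by omega) (by omega) (by omega) (by omega) (by omega)
               (by omega) (by omega) (by omega) (by omega)
          · exact rep_4T3p a b m c d e f g i (by omega) (by omega) (by omega) (by omega)
      · by_cases y3 : e + 2 * f + 1 ≤ b + m + d + g
        · by_cases y4 : b + m + c + d ≤ e + 2 * f
          · by_cases y5 : b + m + c ≤ d + e
            · exact Rep_mirror (rep_1T3 d c m b a i g f e (by omega) (by omega) (by omega)
                 (by omega) (by omega) (by omega) (by omega) (by omega) (by omega) (by omega))
            · exact rep_3T2 a b m c d e f g i (by omega) (by omega) (by omega) (by omega)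
                 (by omega) (by omega) (by omega) (by omega) (by omega) (by omega)
          · by_cases y5 : f + 1 ≤ d + g
            · by_cases y6 : f + 1 ≤ c + d
              · exact rep_4T2 a b m c d e f g i (by omega) (by omega) (by omega) (by omega)
                   (by omega) (by omega) (by omega) (by omega) (by omega)
              · exact rep_3T2 a b m c d e f g i (by omega) (by omega) (by omega) (by omega)
                   (by omega) (by omega) (by omega) (by omega) (by omega) (by omega)
            · by_cases y6 : m + c ≤ e
              · exact rep_3T6 a b m c d e f g i (by omega) (by omega) (by omega) (by omega)
                   (by omega) (by omega) (by omega) (by omega) (by omega)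
              · by_cases y7 : a + m + c ≤ e + g
                · exact rep_3T4 a b m c d e f g i (by omega) (by omega) (by omega) (by omega)
                     (by omega) (by omega) (by omega) (by omega) (by omega) (by omega) (by omega)
                     (by omega) (by omega)
                · by_cases y8 : m + c + d ≤ e + f
                  · exact rep_3T3 a b m c d e f g i (by omega) (by omega) (by omega) (by omega)
                       (by omega) (by omega) (by omega) (by omega) (by omega)
                  · by_cases y9 : a + i ≤ d + e
                    · exact rep_4T4 a b m c d e f g i (by omega) (by omega) (by omega) (by omega)
                         (by omega) (by omega) (by omega) (by omega) (by omega) (by omega)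
                         (by omega) (by omega) (by omega) (by omega) (by omega) (by omega)
                         (by omega)
                    · exact rep_4T3 a b m c d e f g i (by omega) (by omega) (by omega) (by omega)
                         (by omega) (by omega) (by omega) (by omega) (by omega) (by omega)
                         (by omega) (by omega)
        · by_cases y4 : m + c + d ≤ e
          · by_cases y5 : e ≤ i
            · by_cases y6 : b + m + c + d ≤ e
              · exact Rep_mirror (rep_1T5 d c m b a i g f e (by omega) (by omega) (by omega)
                   (by omega) (by omega) (by omega) (by omega) (by omega))
              · exact rep_3T6 a b m c d e f g i (by omega) (by omega) (by omega) (by omega)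
                   (by omega) (by omega) (by omega) (by omega) (by omega)
            · by_cases y6 : b + m + c + d ≤ e
              · by_cases y7 : e + f + 1 ≤ c + i
                · exact Rep_mirror (rep_1T6 d c m b a i g f e (by omega) (by omega) (by omega)
                     (by omega) (by omega))
                · exact Rep_mirror (rep_1T3p d c m b a i g f e (by omega) (by omega) (by omega)
                     (by omega))
              · by_cases y7 : c + 1 ≤ g
                · exact rep_3T2 a b m c d e f g i (by omega) (by omega) (by omega) (by omega)
                     (by omega) (by omega) (by omega) (by omega) (by omega) (by omega)
                · exact rep_3T5 a b m c d e f g i (by omega) (by omega) (by omega) (by omega)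
                     (by omega) (by omega)
          · by_cases y5 : m + 2 * c + d ≤ b + e + g
            · by_cases y6 : a + m + c ≤ e
              · exact rep_3T6 a b m c d e f g i (by omega) (by omega) (by omega) (by omega)
                   (by omega) (by omega) (by omega) (by omega) (by omega)
              · by_cases y7 : 2 * e + f + 1 ≤ a + m + c + i
                · exact rep_3T3 a b m c d e f g i (by omega) (by omega) (by omega) (by omega)
                     (by omega) (by omega) (by omega) (by omega) (by omega)
                · exact rep_3T4 a b m c d e f g i (by omega) (by omega) (by omega) (by omega)
                     (by omega) (by omega) (by omega) (by omega) (by omega) (by omega) (by omega)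
                     (by omega) (by omega)
            · by_cases y6 : f ≤ 0
              · exact rep_4T5 a b m c d e f g i (by omega) (by omega) (by omega) (by omega)
                   (by omega) (by omega) (by omega)
              · by_cases y7 : m + c + d ≤ e + f
                · exact rep_3T3 a b m c d e f g i (by omega) (by omega) (by omega) (by omega)
                     (by omega) (by omega) (by omega) (by omega) (by omega)
                · by_cases y8 : a + i ≤ d + e
                  · exact rep_4T4 a b m c d e f g i (by omega) (by omega) (by omega) (by omega)
                       (by omega) (by omega) (by omega) (by omega) (by omega) (by omega)
                       (by omega) (by omega) (by omega) (by omega) (by omega) (by omega)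
                       (by omega)
                  · exact rep_4T3 a b m c d e f g i (by omega) (by omega) (by omega) (by omega)
                       (by omega) (by omega) (by omega) (by omega) (by omega) (by omega)
                       (by omega) (by omega)
  · by_cases y1 : m + c + d ≤ e + f
    · by_cases y2 : c ≤ g
      · by_cases y3 : a + b ≤ c + d
        · by_cases y4 : c ≤ a + b
          · exact rep_1T1 a b m c d e f g i (by omega) (by omega) (by omega) (by omega) (by omega)
               (by omega)
          · by_cases y5 : m + c ≤ a + b + i
            · exact rep_1T3 a b m c d e f g i (by omega) (by omega) (by omega) (by omega)
                 (by omega) (by omega) (by omega) (by omega) (by omega) (by omega)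
            · by_cases y6 : m + 1 ≤ i
              · exact Rep_mirror (rep_3T2 d c m b a i g f e (by omega) (by omega) (by omega)
                   (by omega) (by omega) (by omega) (by omega) (by omega) (by omega) (by omega))
              · exact Rep_mirror (rep_3T1 d c m b a i g f e (by omega) (by omega) (by omega)
                   (by omega) (by omega) (by omega))
        · by_cases y4 : m + c + d ≤ e
          · by_cases y5 : b + m + c + d ≤ e
            · exact Rep_mirror (rep_1T3p d c m b a i g f e (by omega) (by omega) (by omega)
                 (by omega))
            · exact rep_3T2p a b m c d e f g i (by omega) (by omega) (by omega) (by omega)
                 (by omega)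
          · exact rep_3T1 a b m c d e f g i (by omega) (by omega) (by omega) (by omega) (by omega)
               (by omega)
      · by_cases y3 : m + c + d ≤ e
        · by_cases y4 : b + m + c + d ≤ e
          · exact Rep_mirror (rep_1T6 d c m b a i g f e (by omega) (by omega) (by omega)
               (by omega) (by omega))
          · exact rep_3T5 a b m c d e f g i (by omega) (by omega) (by omega) (by omega) (by omega)
               (by omega)
        · by_cases y4 : a + b ≤ d + g
          · by_cases y5 : m + c ≤ a + b + i
            · exact rep_1T3 a b m c d e f g i (by omega) (by omega) (by omega) (by omega)
                 (by omega) (by omega) (by omega) (by omega) (by omega) (by omega)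
            · exact Rep_mirror (rep_3T2 d c m b a i g f e (by omega) (by omega) (by omega)
                 (by omega) (by omega) (by omega) (by omega) (by omega) (by omega) (by omega))
          · exact rep_3T3 a b m c d e f g i (by omega) (by omega) (by omega) (by omega) (by omega)
               (by omega) (by omega) (by omega) (by omega)
    · by_cases y2 : e + f ≤ m + d + g
      · by_cases y3 : a + b + m + 1 ≤ e + f
        · by_cases y4 : i ≤ a + b + m
          · by_cases y5 : m + d + 1 ≤ i
            · by_cases y6 : a + b + i ≤ d + e + f
              · exact Rep_mirror (rep_3T2 d c m b a i g f e (by omega) (by omega) (by omega)
                   (by omega) (by omega) (by omega) (by omega) (by omega) (by omega) (by omega))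
              · exact rep_4T3 a b m c d e f g i (by omega) (by omega) (by omega) (by omega)
                   (by omega) (by omega) (by omega) (by omega) (by omega) (by omega) (by omega)
                   (by omega)
            · exact Rep_mirror (rep_3T1 d c m b a i g f e (by omega) (by omega) (by omega)
                 (by omega) (by omega) (by omega))
          · by_cases y5 : e + f ≤ i
            · by_cases y6 : a + b + m + c ≤ e + f
              · exact rep_1T3p a b m c d e f g i (by omega) (by omega) (by omega) (by omega)
              · exact rep_4T3 a b m c d e f g i (by omega) (by omega) (by omega) (by omega)
                   (by omega) (by omega) (by omega) (by omega) (by omega) (by omega) (by omega)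
                   (by omega)
            · by_cases y6 : a + b + m + c ≤ i
              · exact rep_1T3p a b m c d e f g i (by omega) (by omega) (by omega) (by omega)
              · by_cases y7 : a + b + i ≤ d + e + f
                · exact Rep_mirror (rep_3T2 d c m b a i g f e (by omega) (by omega) (by omega)
                     (by omega) (by omega) (by omega) (by omega) (by omega) (by omega) (by omega))
                · exact rep_4T3 a b m c d e f g i (by omega) (by omega) (by omega) (by omega)
                     (by omega) (by omega) (by omega) (by omega) (by omega) (by omega) (by omega)
                     (by omega)
        · exact rep_4T1 a b m c d e f g i (by omega) (by omega) (by omega) (by omega) (by omega)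
      · by_cases y3 : f ≤ 0
        · exact rep_4T5 a b m c d e f g i (by omega) (by omega) (by omega) (by omega) (by omega)
             (by omega) (by omega)
        · by_cases y4 : a + b + m + c ≤ e + f
          · by_cases y5 : i ≤ a + b + m + c
            · exact Rep_mirror (rep_3T2 d c m b a i g f e (by omega) (by omega) (by omega)
                 (by omega) (by omega) (by omega) (by omega) (by omega) (by omega) (by omega))
            · exact rep_1T3 a b m c d e f g i (by omega) (by omega) (by omega) (by omega)
                 (by omega) (by omega) (by omega) (by omega) (by omega) (by omega)
          · by_cases y5 : a + b + i ≤ d + e + f
            · by_cases y6 : e + f ≤ i
              · exact rep_4T3 a b m c d e f g i (by omega) (by omega) (by omega) (by omega)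
                   (by omega) (by omega) (by omega) (by omega) (by omega) (by omega) (by omega)
                   (by omega)
              · exact Rep_mirror (rep_3T2 d c m b a i g f e (by omega) (by omega) (by omega)
                   (by omega) (by omega) (by omega) (by omega) (by omega) (by omega) (by omega))
            · exact rep_4T3 a b m c d e f g i (by omega) (by omega) (by omega) (by omega)
                 (by omega) (by omega) (by omega) (by omega) (by omega) (by omega) (by omega)
                 (by omega)

theorem Rep_all (a b m c d e f g i : ℕ) : Rep a b m c d e f g i := by
  rcases Nat.le_total (e + f) (g + i) with h | h
  · exact Rep_of_le a b m c d e f g i h
  · exact Rep_mirror (Rep_of_le d c m b a i g f e (by omega))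

end Pool.Agent.W_30d1b9t_h50
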