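import Pool.Agent.W_30d1b9t_h50.Fam
import Pool.Agent.W_30d1b9_h50.Main

/-!
# MP_30d1b9_co: no invariant vector for `n/2 < k ≤ n - 2`
-/

namespace Pool.Agent.W_30d1b9t_h50

open Pool.Agent.W_30d1b9_h50

variable {n k : ℕ} [NeZero n]

/-- symmetric class sizes: `D = n - 1 - 2 g`, `r < D ≤ 2 r`, `2 r + 2 ≤ g` -/
theorem sym {g r : ℕ} (hk : g + k = n) (h1 : r + 2 * g + 2 ≤ n) (h2 : n ≤ 2 * g + 1 + 2 * r)
    (h3 : 2 * r + 2 ≤ g) (h4 : 1 ≤ r) {M : ℕ} (hM : 1 ≤ M) :
    ∃ p : ZMod n → ℕ, IsP n k p ∧ ¬ IsP n k fun x => p x + M := by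
  have hP : Par n k g r 1 1 r := ⟨hk, by omega, by omega, by omega, by omega, h4⟩
  obtain ⟨A, hA⟩ : ∃ A, A = r * M := ⟨_, rfl⟩
  obtain ⟨B, hB⟩ : ∃ B, B = (g - r - 1 - 1 - r) * M := ⟨_, rfl⟩
  have hAM : M ≤ A := by
    rw [hA]
    exact Nat.le_mul_of_pos_left M h4
  obtain ⟨X, hX⟩ : ∃ X, X + M = A + B := ⟨A + B - M, by omega⟩
  obtain ⟨w, hw⟩ : ∃ w : ℕ → ℕ, w = fun j => if j = 1 ∨ j = 3 then X else
    if j = 5 ∨ j = 8 then 2 * X else 0 := ⟨_, rfl⟩
  obtain ⟨w', hw'⟩ : ∃ w' : ℕ → ℕ, w' = fun j => if j = 9 then 0 else w j + M := ⟨_, rfl⟩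
  have wv : w 0 = 0 ∧ w 1 = X ∧ w 2 = 0 ∧ w 3 = X ∧ w 4 = 0 ∧ w 5 = 2 * X ∧ w 6 = 0 ∧ w 7 = 0 ∧
      w 8 = 2 * X ∧ w 9 = 0 := by
    rw [hw]
    norm_num
  have wv' : w' 0 = M ∧ w' 1 = X + M ∧ w' 2 = M ∧ w' 3 = X + M ∧ w' 4 = M ∧ w' 5 = 2 * X + M ∧
      w' 6 = M ∧ w' 7 = M ∧ w' 8 = 2 * X + M ∧ w' 9 = 0 := by
    rw [hw']
    simp [wv]
  obtain ⟨v0, v1, v2, v3, v4, v5, v6, v7, v8, v9⟩ := wv
  obtain ⟨u0, u1, u2, u3, u4, u5, u6, u7, u8, u9⟩ := wv'
  refine ⟨fun x => w (kp n g r 1 1 r x.val), ?_, ?_⟩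
  · rw [isP_kp hP le_rfl le_rfl w v9, v0, v1, v2, v3, v4, v5, v6, v7, v8]
    simp only [mul_zero, one_mul]
    unfold K
    right; right; right; right; right; right; left
    omega
  · have hq : IsP n k fun x => w' (kp n g r 1 1 r x.val) := by
      rw [isP_kp hP le_rfl le_rfl w' u9, u0, u1, u2, u3, u4, u5, u6, u7, u8, ← hA, ← hB]
      simp only [one_mul]
      unfold K
      rcases Nat.eq_zero_or_pos X with hX0 | hX0
      · left
        omega
      · right; right; right; right; right; left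
        omega
    refine not_isP_of hk (by omega) hq ?_ ?_ ?_
    · intro x hx
      have := kp_cases n g r 1 1 r x.val
      have h9 : kp n g r 1 1 r x.val ≠ 9 := by omega
      show w' _ = w _ + M
      rw [hw']
      show (if _ then _ else _) = _
      rw [if_neg h9]
    · intro x hx
      show w' _ ≤ w _ + M
      rw [hw']
      show (if _ then _ else _) ≤ _
      split_ifs
      · exact Nat.zero_le _
      · exact le_rfl
    · intro h
      have h5 := congrFun h ((g : ℕ) : ZMod n)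
      have h6 : ((g : ℕ) : ZMod n).val = g := val_cast (by omega)
      have h7 := kp_cases n g r 1 1 r g
      have h8 : kp n g r 1 1 r g = 9 := by omega
      simp only [h6, h8, u9, v9] at h5
      omega

theorem mul_sub_one_add {g c : ℕ} (M : ℕ) (h : c + 1 ≤ g) :
    (g - (c + 1)) * M + M = (g - c) * M := by
  have h1 : g - c = g - (c + 1) + 1 := by omega
  rw [h1, add_mul, one_mul]

/-- `n = 3 g - 1` -/
theorem fam2 {g : ℕ} (hk : g + k = n) (hg : 4 ≤ g) (hn : n + 1 = 3 * g) {M : ℕ} (hM : 1 ≤ M) :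
    ∃ p : ZMod n → ℕ, IsP n k p ∧ ¬ IsP n k fun x => p x + M := by
  have hP : Par n k g 1 1 1 (g - 3) := ⟨hk, by omega, by omega, by omega, by omega, le_rfl⟩
  obtain ⟨X, hX⟩ : ∃ X, X = (g - 4) * M := ⟨_, rfl⟩
  have hX3 : X + M = (g - 3) * M := by
    rw [hX]
    exact mul_sub_one_add M (by omega)
  refine ⟨fun x => if x.val = 1 ∨ x.val = g ∨ x.val = g + 2 ∨ x.val = 2 * g + 1 then X else 0,
    isP_four hk (by omega) (by omega) (by omega) (by omega) (by omega) (by omega) (by omega)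
      (by omega) (by omega) (by omega) X, ?_⟩
  obtain ⟨w, hw⟩ : ∃ w : ℕ → ℕ, w = fun j => if j = 9 then 0 else
    if j = 1 ∨ j = 6 ∨ j = 8 then X + M else M := ⟨_, rfl⟩
  have wv : w 0 = M ∧ w 1 = X + M ∧ w 2 = M ∧ w 3 = M ∧ w 4 = M ∧ w 5 = M ∧
      w 6 = X + M ∧ w 7 = M ∧ w 8 = X + M ∧ w 9 = 0 := by
    rw [hw]
    norm_num
  obtain ⟨u0, u1, u2, u3, u4, u5, u6, u7, u8, u9⟩ := wv
  have hwle : ∀ j, w j ≤ X + M := by
    intro j
    rw [hw]
    by_cases a1 : j = 9
    · show (if j = 9 then 0 else _) ≤ _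
      rw [if_pos a1]
      exact Nat.zero_le _
    · show (if j = 9 then 0 else _) ≤ _
      rw [if_neg a1]
      split_ifs
      · exact le_rfl
      · exact Nat.le_add_left _ _
  have hq : IsP n k fun x => w (kp n g 1 1 1 (g - 3) x.val) := by
    rw [isP_kp hP le_rfl le_rfl w u9, u0, u1, u2, u3, u4, u5, u6, u7, u8, ← hX3,
      show g - 1 - 1 - 1 - (g - 3) = 0 by omega]
    simp only [one_mul, zero_mul]
    unfold K
    left
    omega
  refine not_isP_of hk (by omega) hq ?_ ?_ ?_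
  · intro x hx
    have h7 := kp_cases n g 1 1 1 (g - 3) x.val
    show w _ = (if _ then _ else _) + M
    rcases Nat.eq_or_lt_of_le (show 0 ≤ x.val from Nat.zero_le _) with h0 | h0
    · have h8 : kp n g 1 1 1 (g - 3) x.val = 0 := by omega
      rw [h8, u0, if_neg (by omega), zero_add]
    rcases Nat.eq_or_lt_of_le (show 1 ≤ x.val from h0) with h1 | h1
    · have h8 : kp n g 1 1 1 (g - 3) x.val = 1 := by omega
      rw [h8, u1, if_pos (by omega)]
    rcases Nat.eq_or_lt_of_le (show 2 ≤ x.val from h1) with h2 | h2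
    · have h8 : kp n g 1 1 1 (g - 3) x.val = 3 := by omega
      rw [h8, u3, if_neg (by omega), zero_add]
    · have h8 : kp n g 1 1 1 (g - 3) x.val = 4 := by omega
      rw [h8, u4, if_neg (by omega), zero_add]
  · intro x hx
    have h7 := kp_cases n g 1 1 1 (g - 3) x.val
    show w _ ≤ (if _ then _ else _) + M
    by_cases h5 : x.val = g + 2 ∨ x.val = 2 * g + 1
    · rw [if_pos (by omega)]
      exact hwle _
    · have h8 : kp n g 1 1 1 (g - 3) x.val ≠ 1 ∧ kp n g 1 1 1 (g - 3) x.val ≠ 6 ∧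
          kp n g 1 1 1 (g - 3) x.val ≠ 8 := by omega
      have h9 : w (kp n g 1 1 1 (g - 3) x.val) ≤ M := by
        rw [hw]
        show (if _ then _ else _) ≤ _
        split_ifs <;> omega
      omega
  · intro h
    have h5 := congrFun h ((g : ℕ) : ZMod n)
    have h6 : ((g : ℕ) : ZMod n).val = g := val_cast (by omega)
    have h7 := kp_cases n g 1 1 1 (g - 3) g
    have h8 : kp n g 1 1 1 (g - 3) g = 9 := by omega
    simp only [h6, h8, u9] at h5
    omega

/-- `n = 3 g` -/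
theorem fam3 {g : ℕ} (hk : g + k = n) (hg : 3 ≤ g) (hn : n = 3 * g) {M : ℕ} (hM : 1 ≤ M) :
    ∃ p : ZMod n → ℕ, IsP n k p ∧ ¬ IsP n k fun x => p x + M := by
  have hP : Par n k g 1 0 1 (g - 2) := ⟨hk, by omega, by omega, by omega, by omega, le_rfl⟩
  obtain ⟨X, hX⟩ : ∃ X, X = (g - 2) * M := ⟨_, rfl⟩
  have hX1 : M ≤ X := by
    rw [hX]
    exact Nat.le_mul_of_pos_left M (by omega)
  refine ⟨fun x => if x.val = 0 ∨ x.val = g ∨ x.val = g + 1 ∨ x.val = 2 * g + 1 then X else 0,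
    isP_four hk (by omega) (by omega) (by omega) (by omega) (by omega) (by omega) (by omega)
      (by omega) (by omega) (by omega) X, ?_⟩
  obtain ⟨w, hw⟩ : ∃ w : ℕ → ℕ, w = fun j => if j = 9 then 0 else
    if j = 0 ∨ j = 5 then X + M else if j = 8 then X else M := ⟨_, rfl⟩
  have wv : w 0 = X + M ∧ w 3 = M ∧ w 4 = M ∧ w 5 = X + M ∧
      w 7 = M ∧ w 8 = X ∧ w 9 = 0 := by
    rw [hw]
    norm_num
  obtain ⟨u0, u3, u4, u5, u7, u8, u9⟩ := wv
  have hwle : ∀ j, w j ≤ X + M := by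
    intro j
    rw [hw]
    by_cases a1 : j = 9
    · show (if j = 9 then 0 else _) ≤ _
      rw [if_pos a1]
      exact Nat.zero_le _
    · show (if j = 9 then 0 else _) ≤ _
      rw [if_neg a1]
      split_ifs
      · exact le_rfl
      · exact Nat.le_add_right _ _
      · exact Nat.le_add_left _ _
  have hq : IsP n k fun x => w (kp n g 1 0 1 (g - 2) x.val) := by
    rw [isP_kp hP (by norm_num) le_rfl w u9, u0, u3, u4, u5, u7, u8, ← hX,
      show g - 1 - 0 - 1 - (g - 2) = 0 by omega]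
    simp only [one_mul, zero_mul]
    unfold K
    right; right; left
    omega
  refine not_isP_of hk (by omega) hq ?_ ?_ ?_
  · intro x hx
    have h7 := kp_cases n g 1 0 1 (g - 2) x.val
    show w _ = (if _ then _ else _) + M
    rcases Nat.eq_or_lt_of_le (show 0 ≤ x.val from Nat.zero_le _) with h0 | h0
    · have h8 : kp n g 1 0 1 (g - 2) x.val = 0 := by omega
      rw [h8, u0, if_pos (by omega)]
    rcases Nat.eq_or_lt_of_le (show 1 ≤ x.val from h0) with h1 | h1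
    · have h8 : kp n g 1 0 1 (g - 2) x.val = 3 := by omega
      rw [h8, u3, if_neg (by omega), zero_add]
    · have h8 : kp n g 1 0 1 (g - 2) x.val = 4 := by omega
      rw [h8, u4, if_neg (by omega), zero_add]
  · intro x hx
    have h7 := kp_cases n g 1 0 1 (g - 2) x.val
    show w _ ≤ (if _ then _ else _) + M
    by_cases h5 : x.val = g + 1 ∨ x.val = 2 * g + 1
    · rw [if_pos (by omega)]
      exact hwle _
    · have h8 : kp n g 1 0 1 (g - 2) x.val ≠ 0 ∧ kp n g 1 0 1 (g - 2) x.val ≠ 5 ∧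
          kp n g 1 0 1 (g - 2) x.val ≠ 8 := by omega
      have h9 : w (kp n g 1 0 1 (g - 2) x.val) ≤ M := by
        rw [hw]
        show (if _ then _ else _) ≤ _
        split_ifs <;> omega
      omega
  · intro h
    have h5 := congrFun h ((g : ℕ) : ZMod n)
    have h6 : ((g : ℕ) : ZMod n).val = g := val_cast (by omega)
    have h7 := kp_cases n g 1 0 1 (g - 2) g
    have h8 : kp n g 1 0 1 (g - 2) g = 9 := by omega
    simp only [h6, h8, u9] at h5
    omega

/-- all `n/2 < k < (2n+1)/3` -/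
theorem strip (h1 : n < 2 * k) (h2 : 3 * k < 2 * n + 1) (h3 : n + 1 ≠ 2 * k)
    (h4 : n + 2 ≠ 2 * k) {M : ℕ} (hM : 1 ≤ M) :
    ∃ p : ZMod n → ℕ, IsP n k p ∧ ¬ IsP n k fun x => p x + M := by
  obtain ⟨g, hg⟩ : ∃ g, g + k = n := ⟨n - k, by omega⟩
  rcases Nat.lt_or_ge n (3 * g - 1) with h | h
  · exact sym hg (r := (n - 1 - 2 * g + 1) / 2) (by omega) (by omega) (by omega) (by omega) hM
  · rcases Nat.eq_or_lt_of_le h with h | h
    · exact fam2 hg (by omega) (by omega) hM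
    · exact fam3 hg (by omega) (by omega) hM

/-- **Main theorem.** No nonzero vector of nonnegative integers preserves the P-positions. -/
theorem no_inv (h1 : n < 2 * k) (h2 : k + 2 ≤ n) (z : ZMod n → ℕ) (hz : z ≠ 0) :
    ∃ p : ZMod n → ℕ, IsP n k p ∧ ¬ IsP n k (p + z) := by
  by_cases h : 2 * n + 1 ≤ 3 * k ∨ n + 1 = 2 * k ∨ n + 2 = 2 * k
  · exact no_invariant h2 h z hz
  · push Not at h
    by_contra hcon
    push Not at hcon
    have hM : 1 ≤ ∑ a, z a := by
      by_contra h0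
      apply hz
      funext x
      have h5 : ∑ a, z a = 0 := by omega
      exact (Finset.sum_eq_zero_iff.1 h5) x (Finset.mem_univ x)
    obtain ⟨p, hp, hq⟩ := strip h1 (by omega) (by omega) (by omega) hM
    exact hq (isP_add_trace hcon hp)

end Pool.Agent.W_30d1b9t_h50
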