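import Pool.Agent.W_30d1b9t_h50.Strip

/-!
# MP_30d1b9_co: the games `CN(n,n-1)` and `CN(n,n)`
-/

namespace Pool.Agent.W_30d1b9t_h50

open Pool.Agent.W_30d1b9_h50

variable {n k : ℕ} [NeZero n]

theorem window_top (hk : k + 1 = n) (i j : ZMod n) : j ∉ window n k (i + 1) ↔ j = i := by
  have hi : (i + 1 : ZMod n) = i + ((1 : ℕ) : ZMod n) := by rw [Nat.cast_one]
  constructor
  · intro h
    by_contra hne
    apply h
    have h1 : (j - i).val ≠ 0 := by
      intro h2
      rw [ZMod.val_eq_zero, sub_eq_zero] at h2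
      exact hne h2
    refine ⟨(j - i).val - 1, ?_, ?_⟩
    · have := ZMod.val_lt (j - i)
      omega
    · rw [hi, add_assoc, ← Nat.cast_add, show 1 + ((j - i).val - 1) = (j - i).val by omega,
        ZMod.natCast_zmod_val]
      ring
  · rintro rfl ⟨t, ht, h⟩
    rw [hi, add_assoc, ← Nat.cast_add] at h
    have h1 : (((1 + t : ℕ)) : ZMod n) = 0 := by
      have h2 : j + ((1 + t : ℕ) : ZMod n) = j + 0 := by
        rw [add_zero]
        exact h.symm
      exact add_left_cancel h2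
    rw [ZMod.natCast_eq_zero_iff] at h1
    have := Nat.le_of_dvd (by omega) h1
    omega

/-- the P-positions of `CN(n,n-1)` -/
theorem isP_top (hk : k + 1 = n) (p : ZMod n → ℕ) : IsP n k p ↔ ∃ V, ∀ x, p x = V := by
  have hc : ∀ V : ℕ, IsP n k fun _ => V := by
    intro V
    refine isP_cluster' Set.univ (fun x => x) ?_ ?_ _ (fun x hx => absurd (Set.mem_univ x) hx) V ?_
    · intro i
      refine ⟨i - 1, Set.mem_univ _, fun x _ hx => ?_⟩
      have h1 := (window_top hk (i - 1) x).2 hx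
      rwa [sub_add_cancel] at h1
    · intro y _
      refine ⟨y + 1, fun x _ hx => ?_⟩
      by_contra hcon
      exact hx ((window_top hk y x).1 hcon)
    · intro y _ C hC
      rw [Finset.sum_eq_single y]
      · intro x hx hxy
        exact absurd ((hC x).1 hx).2 hxy
      · intro h
        exact absurd ((hC y).2 ⟨Set.mem_univ _, rfl⟩) h
  constructor
  · intro hp
    by_contra hcon
    push Not at hcon
    obtain ⟨y, _, hy⟩ := Finset.exists_min_image Finset.univ p ⟨0, Finset.mem_univ _⟩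
    refine (isP_iff p).1 hp (fun _ => p y) ⟨y + 1, fun j hj => ?_, fun j => ?_, fun h => ?_⟩
      (hc (p y))
    · rw [(window_top hk y j).1 hj]
    · exact hy j (Finset.mem_univ j)
    · obtain ⟨x, hx⟩ := hcon (p y)
      exact hx (congrFun h x).symm
  · rintro ⟨V, hV⟩
    have : p = fun _ => V := funext hV
    rw [this]
    exact hc V

theorem invariant_top (hk : k + 1 = n) : Invariant n k fun _ => 1 := by
  refine ⟨fun _ => Or.inr rfl, fun p hp c q hq => ?_⟩
  obtain ⟨V, hV⟩ := (isP_top hk p).1 hp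
  rw [isP_top hk]
  refine ⟨q 0, fun x => ?_⟩
  have h1 : (q x : ℤ) = (p x : ℤ) + c * ((1 : ℕ) : ℤ) := hq x
  have h2 : (q 0 : ℤ) = (p 0 : ℤ) + c * ((1 : ℕ) : ℤ) := hq 0
  rw [hV] at h1 h2
  omega

theorem isP_zero : IsP n k fun _ => 0 := by
  rw [isP_iff]
  rintro q ⟨i, _, hle, hne⟩ _
  exact hne (funext fun x => Nat.le_zero.1 (hle x))

theorem no_inv_full (hk : k = n) (z : ZMod n → ℕ) (hz : z ≠ 0) :
    ∃ p : ZMod n → ℕ, IsP n k p ∧ ¬ IsP n k (p + z) := by
  refine ⟨fun _ => 0, isP_zero, fun h => ?_⟩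
  have e : (fun _ => 0) + z = z := by
    funext x
    exact Nat.zero_add _
  rw [e] at h
  refine (isP_iff z).1 h (fun _ => 0) ⟨0, fun j hj => ?_, fun j => Nat.zero_le _, fun h0 => ?_⟩
    isP_zero
  · exfalso
    apply hj
    refine ⟨j.val, ?_, ?_⟩
    · rw [hk]
      exact ZMod.val_lt j
    · rw [ZMod.natCast_zmod_val, zero_add]
  · exact hz h0.symm

/-- Question 1 for all `k > n/2`. -/
theorem upper_half (h1 : n < 2 * k) (h2 : k ≤ n) :
    ((∃ z : ZMod n → ℕ, z ≠ 0 ∧ Invariant n k z) ↔ k + 1 = n) ∧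
    (k + 1 = n → Invariant n k fun _ => 1) ∧
    (k + 1 ≠ n → ∀ z : ZMod n → ℕ, z ≠ 0 → ∃ p : ZMod n → ℕ, IsP n k p ∧ ¬ IsP n k (p + z)) := by
  have h3 : k + 1 ≠ n → ∀ z : ZMod n → ℕ, z ≠ 0 →
      ∃ p : ZMod n → ℕ, IsP n k p ∧ ¬ IsP n k (p + z) := by
    intro h z hz
    rcases Nat.eq_or_lt_of_le h2 with h4 | h4
    · exact no_inv_full h4 z hz
    · exact no_inv h1 (by omega) z hz
  refine ⟨⟨?_, fun h => ⟨fun _ => 1, fun h0 => ?_, invariant_top h⟩⟩, invariant_top, h3⟩
  · rintro ⟨z, hz, hinv⟩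
    by_contra hcon
    obtain ⟨p, hp, hpz⟩ := h3 hcon z hz
    refine hpz (hinv.2 p hp 1 (p + z) fun i => ?_)
    rw [Pi.add_apply]
    push_cast
    ring
  · have := congrFun h0 0
    simp at this

end Pool.Agent.W_30d1b9t_h50
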